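import Mathlib

set_option autoImplicit false

/-!
# Squeezing function limits at finite type points that are not strongly pseudoconvex

For every `n ≥ 2` the egg `E = {x ∈ ℂⁿ : ∑_{j < n-1} |x_j|² + |x_{n-1}|⁴ < 1}` and the boundary
point `p = (1, 0, …, 0)` form an admissible pair (in the senses (B) and (C), and (A) if `n = 2`),
`p` is not a strongly pseudoconvex boundary point, and there is a sequence in `E` converging to `p`
along which the squeezing function tends to `1`.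
-/

open Filter Topology Set Asymptotics
open scoped ContDiff ENNReal NNReal

namespace Pool.Agent.Results.MP_63facb_an.EggSequence

/-- `ℂⁿ` with the Euclidean norm. -/
abbrev Cn (n : ℕ) := EuclideanSpace ℂ (Fin n)

/-- `F` is a holomorphic embedding of the open set `D ⊆ ℂⁿ` into `ℂⁿ`: an injective holomorphic
immersion. -/
def IsHolEmbedding {n : ℕ} (D : Set (Cn n)) (F : Cn n → Cn n) : Prop :=
  DifferentiableOn ℂ F D ∧ InjOn F D ∧ ∀ x ∈ D, Function.Injective (fderiv ℂ F x)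

/-- The squeezing function `s_D(z)`. -/
noncomputable def squeezing {n : ℕ} (D : Set (Cn n)) (z : Cn n) : ℝ :=
  sSup {r : ℝ | 0 < r ∧ ∃ F : Cn n → Cn n, IsHolEmbedding D F ∧ MapsTo F D (Metric.ball 0 1) ∧
    F z = 0 ∧ Metric.ball 0 r ⊆ F '' D}

/-- `ρ` is a `C^∞` local defining function of `D` on the open neighbourhood `U` of `p`. -/
def IsDefining {n : ℕ} (D : Set (Cn n)) (p : Cn n) (U : Set (Cn n)) (ρ : Cn n → ℝ) : Prop :=
  IsOpen U ∧ p ∈ U ∧ ContDiffOn ℝ ∞ ρ U ∧ (∀ z ∈ U, fderiv ℝ ρ z ≠ 0) ∧ ∀ z ∈ U, z ∈ D ↔ ρ z < 0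

/-- (Four times) the Levi form of `ρ` at `q` in the direction `v`:
`4 ∑ ρ_{j k̄}(q) v_j v̄_k = D²ρ(q)(v, v) + D²ρ(q)(i v, i v)`. -/
noncomputable def levi {n : ℕ} (ρ : Cn n → ℝ) (q v : Cn n) : ℝ :=
  fderiv ℝ (fderiv ℝ ρ) q v v + fderiv ℝ (fderiv ℝ ρ) q (Complex.I • v) (Complex.I • v)

/-- `v` belongs to the complex tangent space at `q` of the hypersurface `{ρ = ρ q}`. -/
def IsComplexTangent {n : ℕ} (ρ : Cn n → ℝ) (q v : Cn n) : Prop :=
  fderiv ℝ ρ q v = 0 ∧ fderiv ℝ ρ q (Complex.I • v) = 0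

/-- The boundary `{ρ = 0}` is Levi-pseudoconvex in `U`. -/
def LeviPseudoconvexOn {n : ℕ} (U : Set (Cn n)) (ρ : Cn n → ℝ) : Prop :=
  ∀ q ∈ U, ρ q = 0 → ∀ v, IsComplexTangent ρ q v → 0 ≤ levi ρ q v

/-- `p` is a strongly (Levi) pseudoconvex boundary point of `D`: for some `C^∞` local defining
function the Levi form at `p` is positive definite on the complex tangent space. -/
def StronglyPseudoconvexAt {n : ℕ} (D : Set (Cn n)) (p : Cn n) : Prop :=
  ∃ U ρ, IsDefining D p U ρ ∧ ∀ v, v ≠ 0 → IsComplexTangent ρ p v → 0 < levi ρ p v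

/-- The order of vanishing at `0` of a function `g` of one complex variable: the supremum of the
`m` with `g(t) = O(|t|^m)` as `t → 0`. -/
noncomputable def vanishingOrder {E : Type*} [NormedAddCommGroup E] (g : ℂ → E) : ℕ∞ :=
  ⨆ (m : ℕ) (_ : g =O[𝓝 0] fun t : ℂ => ‖t‖ ^ m), (m : ℕ∞)

/-- The D'Angelo 1-type at `q` of the hypersurface `{ρ = 0}`: the supremum of `ν(ρ ∘ γ) / ν(γ - q)`
over all nonconstant germs `γ` at `0` of holomorphic curves with `γ(0) = q`. -/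
noncomputable def dAngeloType {n : ℕ} (ρ : Cn n → ℝ) (q : Cn n) : ℝ≥0∞ :=
  ⨆ (γ : ℂ → Cn n) (_ : AnalyticAt ℂ γ 0 ∧ γ 0 = q ∧ ¬ ∀ᶠ t in 𝓝 0, γ t = q),
    ((vanishingOrder (fun t => ρ (γ t)) : ℕ∞) : ℝ≥0∞) /
      ((vanishingOrder (fun t => γ t - q) : ℕ∞) : ℝ≥0∞)

/-- Case (A): `n = 2`, the boundary is `C^∞` and Levi-pseudoconvex near `p`, and `p` is of finite
type. -/
def CaseA {n : ℕ} (D : Set (Cn n)) (p : Cn n) : Prop :=
  n = 2 ∧ ∃ U ρ, IsDefining D p U ρ ∧ LeviPseudoconvexOn U ρ ∧ dAngeloType ρ p < ⊤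

/-- Case (B): `n ≥ 2`, the boundary is `C^∞`, Levi-pseudoconvex and of finite type near `p`, and the
Levi form at `p` has at least `n - 2` positive eigenvalues, i.e. it is positive definite on a complex
subspace of dimension `n - 2` of the complex tangent space. -/
def CaseB {n : ℕ} (D : Set (Cn n)) (p : Cn n) : Prop :=
  2 ≤ n ∧ ∃ U ρ, IsDefining D p U ρ ∧ LeviPseudoconvexOn U ρ ∧
    (∀ q ∈ U, ρ q = 0 → dAngeloType ρ q < ⊤) ∧
    ∃ V : Submodule ℂ (Cn n), Module.finrank ℂ V = n - 2 ∧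
      ∀ v ∈ V, IsComplexTangent ρ p v ∧ (v ≠ 0 → 0 < levi ρ p v)

/-- Case (C): `n ≥ 2`, `D` is convex, and the boundary is `C^∞` and of finite type near `p`. -/
def CaseC {n : ℕ} (D : Set (Cn n)) (p : Cn n) : Prop :=
  2 ≤ n ∧ Convex ℝ D ∧ ∃ U ρ, IsDefining D p U ρ ∧ ∀ q ∈ U, ρ q = 0 → dAngeloType ρ q < ⊤

section TypeLemmas

lemma le_vanishingOrder {E : Type*} [NormedAddCommGroup E] {g : ℂ → E} {m : ℕ}
    (h : g =O[𝓝 0] fun t : ℂ => ‖t‖ ^ m) : (m : ℕ∞) ≤ vanishingOrder g :=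
  le_iSup₂ (f := fun (m : ℕ) (_ : g =O[𝓝 0] fun t : ℂ => ‖t‖ ^ m) => (m : ℕ∞)) m h

lemma exists_small_pow {c C : ℝ} (hc : 0 < c) {R : ℝ} (hR : 0 < R) {k m : ℕ} (hkm : k < m) :
    ∃ ρ, 0 < ρ ∧ ρ < R ∧ C * ρ ^ m < c * ρ ^ k := by
  have h1 : Tendsto (fun ρ : ℝ => C * ρ ^ (m - k)) (𝓝[>] 0) (𝓝 0) := by
    have h2 : Continuous (fun ρ : ℝ => C * ρ ^ (m - k)) := by fun_prop
    have h3 := h2.tendsto 0
    have h4 : C * (0:ℝ) ^ (m - k) = 0 := by
      rw [zero_pow (by omega), mul_zero]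
    rw [h4] at h3
    exact h3.mono_left nhdsWithin_le_nhds
  have h5 := (h1.eventually_lt_const hc).and (Ioo_mem_nhdsGT hR)
  obtain ⟨ρ, hρ1, hρ2⟩ := h5.exists
  refine ⟨ρ, hρ2.1, hρ2.2, ?_⟩
  have h6 : ρ ^ m = ρ ^ (m - k) * ρ ^ k := by
    rw [← pow_add]; congr 1; omega
  rw [h6, ← mul_assoc]
  exact mul_lt_mul_of_pos_right hρ1 (pow_pos hρ2.1 k)

/-- A function bounded below by `2 Re h + c ‖x - q‖^N`, `h` holomorphic with `h(q) = 0`, has type at
most `N` at `q`. -/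
lemma dAngeloType_le_of_lower {n : ℕ} {r : Cn n → ℝ} {q : Cn n} {h : Cn n → ℂ}
    (hh : Differentiable ℂ h) (hq : h q = 0) {c : ℝ} (hc : 0 < c) {N : ℕ}
    (hlow : ∀ᶠ x in 𝓝 q, (h x).re + c * ‖x - q‖ ^ N ≤ r x) : dAngeloType r q ≤ N := by
  unfold dAngeloType
  refine iSup₂_le fun γ hγ => ?_
  obtain ⟨hγa, hγ0, hγn⟩ := hγ
  have hγa' : AnalyticAt ℂ (fun t => γ t - q) 0 := hγa.sub analyticAt_const
  have hγn' : ¬ ∀ᶠ t in 𝓝 (0:ℂ), γ t - q = 0 := by
    intro hcon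
    exact hγn (hcon.mono fun t ht => sub_eq_zero.mp ht)
  -- factorisation of γ - q
  obtain ⟨k, g, hg, hg0, hfac⟩ := hγa'.exists_eventuallyEq_pow_smul_nonzero_iff.mpr hγn'
  simp only [sub_zero] at hfac
  have hgn : 0 < ‖g 0‖ := norm_pos_iff.mpr hg0
  have hgc : ContinuousAt g 0 := hg.continuousAt
  have hlow' : ∀ᶠ t in 𝓝 (0:ℂ), ‖g 0‖ / 2 * ‖t‖ ^ k ≤ ‖γ t - q‖ := by
    have h1 : ∀ᶠ t in 𝓝 (0:ℂ), ‖g 0‖ / 2 < ‖g t‖ :=
      continuousAt_const.eventually_lt hgc.norm (by linarith)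
    filter_upwards [h1, hfac] with t h1 h2
    rw [h2, norm_smul, norm_pow, mul_comm]
    exact mul_le_mul_of_nonneg_left h1.le (by positivity)
  have hO : (fun t => γ t - q) =O[𝓝 0] fun t : ℂ => ‖t‖ ^ k := by
    have h1 : ∀ᶠ t in 𝓝 (0:ℂ), ‖g t‖ < ‖g 0‖ + 1 :=
      hgc.norm.eventually_lt continuousAt_const (by linarith)
    refine IsBigO.of_bound (‖g 0‖ + 1) ?_
    filter_upwards [h1, hfac] with t h1 h2
    rw [h2, norm_smul, norm_pow, norm_pow, norm_norm, mul_comm]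
    exact mul_le_mul_of_nonneg_right h1.le (by positivity)
  have hordγ : (k : ℕ∞) ≤ vanishingOrder (fun t => γ t - q) := le_vanishingOrder hO
  have hordr : vanishingOrder (fun t => r (γ t)) ≤ ((N * k : ℕ) : ℕ∞) := by
    unfold vanishingOrder
    refine iSup₂_le fun m hm => ?_
    by_contra hcon
    have hkm : N * k < m := by
      have := not_le.mp hcon
      exact_mod_cast this
    obtain ⟨C, hC⟩ := hm.bound
    have htend : Tendsto γ (𝓝 0) (𝓝 q) := by
      have := hγa.continuousAt.tendsto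
      rwa [hγ0] at this
    have hsmall := htend.eventually hlow
    obtain ⟨δ, hδ, hball⟩ := Metric.eventually_nhds_iff_ball.mp
      (((hlow'.and hC).and hsmall).and hγa.eventually_analyticAt)
    have hc' : 0 < c * (‖g 0‖ / 2) ^ N := by positivity
    obtain ⟨ρ, hρ0, hρ1, hρ2⟩ := exists_small_pow (C := C) hc' hδ hkm
    have hsub : Metric.closedBall (0:ℂ) ρ ⊆ Metric.ball 0 δ := Metric.closedBall_subset_ball hρ1
    have hdiff : DiffContOnCl ℂ (fun t => h (γ t)) (Metric.ball 0 |ρ|) := by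
      rw [abs_of_pos hρ0]
      apply DifferentiableOn.diffContOnCl
      rw [closure_ball _ hρ0.ne']
      intro t ht
      have h1 : DifferentiableAt ℂ γ t := (hball t (hsub ht)).2.differentiableAt
      exact ((hh (γ t)).comp t h1).differentiableWithinAt
    have hcont : ContinuousOn (fun t => h (γ t)) (Metric.sphere 0 |ρ|) := by
      rw [abs_of_pos hρ0]
      intro t ht
      have h1 : ContinuousAt γ t :=
        (hball t (hsub (Metric.sphere_subset_closedBall ht))).2.continuousAt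
      exact (hh.continuous.continuousAt.comp h1).continuousWithinAt
    have hmean : Real.circleAverage (fun t => (h (γ t)).re) 0 ρ = 0 := by
      have h1 := DiffContOnCl.circleAverage hdiff
      have h2 := Complex.reCLM.circleAverage_comp_comm (c := 0) (R := ρ)
        (f := fun t => h (γ t)) hcont.circleIntegrable'
      have h3 : (Complex.reCLM ∘ fun t => h (γ t)) = fun t => (h (γ t)).re := rfl
      rw [h3, h1] at h2
      rw [h2]
      simp [hγ0, hq]
    have hle : Real.circleAverage (fun t => (h (γ t)).re) 0 ρ ≤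
        C * ρ ^ m - c * (‖g 0‖ / 2) ^ N * ρ ^ (N * k) := by
      apply Real.circleAverage_mono_on_of_le_circle
      · apply ContinuousOn.circleIntegrable'
        exact Complex.continuous_re.comp_continuousOn hcont
      · intro t ht
        rw [abs_of_pos hρ0] at ht
        have htn : ‖t‖ = ρ := by simpa using ht
        obtain ⟨⟨⟨h1, h2⟩, h3⟩, -⟩ := hball t (hsub (Metric.sphere_subset_closedBall ht))
        have h5 : r (γ t) ≤ C * ρ ^ m := by
          refine (le_abs_self _).trans ?_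
          simpa [htn, abs_of_pos hρ0] using h2
        have h6 : (‖g 0‖ / 2) ^ N * ρ ^ (N * k) ≤ ‖γ t - q‖ ^ N := by
          rw [htn] at h1
          have := pow_le_pow_left₀ (by positivity) h1 N
          calc (‖g 0‖ / 2) ^ N * ρ ^ (N * k) = (‖g 0‖ / 2 * ρ ^ k) ^ N := by
                rw [mul_pow, ← pow_mul, mul_comm k N]
            _ ≤ _ := this
        have h7 := mul_le_mul_of_nonneg_left h6 hc.le
        have h8 : c * (‖g 0‖ / 2) ^ N * ρ ^ (N * k) = c * ((‖g 0‖ / 2) ^ N * ρ ^ (N * k)) := by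
          ring
        rw [h8]
        linarith
    rw [hmean] at hle
    linarith
  refine ENNReal.div_le_of_le_mul ?_
  have h1 : ((vanishingOrder (fun t => r (γ t)) : ℕ∞) : ℝ≥0∞) ≤ ((N * k : ℕ) : ℝ≥0∞) := by
    exact_mod_cast hordr
  have h2 : (k : ℝ≥0∞) ≤ ((vanishingOrder (fun t => γ t - q) : ℕ∞) : ℝ≥0∞) := by
    exact_mod_cast hordγ
  refine h1.trans ?_
  push_cast
  gcongr

end TypeLemmas

section Egg

variable {m : ℕ}

/-- `S x = ∑_{j < n-1} |x_j|²` -/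
noncomputable def S (x : Cn (m + 2)) : ℝ := ∑ j : Fin (m + 1), ‖x j.castSucc‖ ^ 2

/-- the last coordinate -/
noncomputable def la (x : Cn (m + 2)) : ℂ := x (Fin.last (m + 1))

/-- the defining function `∑_{j < n-1} |x_j|² + |x_{n-1}|⁴ - 1` -/
noncomputable def rho (x : Cn (m + 2)) : ℝ := S x + ‖la x‖ ^ 4 - 1

/-- the egg `∑_{j < n-1} |x_j|² + |x_{n-1}|⁴ < 1` -/
def Egg (m : ℕ) : Set (Cn (m + 2)) := {x | rho x < 0}

lemma S_nonneg (x : Cn (m + 2)) : 0 ≤ S x := Finset.sum_nonneg fun _ _ => by positivity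

lemma norm_sq_eq (x : Cn (m + 2)) : ‖x‖ ^ 2 = S x + ‖la x‖ ^ 2 := by
  rw [EuclideanSpace.norm_sq_eq, Fin.sum_univ_castSucc]
  rfl

lemma contDiff_apply_sq (i : Fin (m + 2)) : ContDiff ℝ ∞ (fun x : Cn (m + 2) => ‖x i‖ ^ 2) := by
  apply ContDiff.norm_sq ℝ
  have : ContDiff ℂ ∞ (fun x : Cn (m + 2) => x i) := by fun_prop
  exact this.restrict_scalars ℝ

lemma contDiff_rho : ContDiff ℝ ∞ (rho (m := m)) := by
  have h1 : ContDiff ℝ ∞ (S (m := m)) := ContDiff.sum fun j _ => contDiff_apply_sq _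
  have h2 : ContDiff ℝ ∞ (fun x : Cn (m + 2) => ‖la x‖ ^ 4) := by
    have : (fun x : Cn (m + 2) => ‖la x‖ ^ 4) = fun x => (‖x (Fin.last (m + 1))‖ ^ 2) ^ 2 := by
      ext x; simp only [la]; ring
    rw [this]
    exact (contDiff_apply_sq _).pow 2
  exact (h1.add h2).sub contDiff_const

lemma isOpen_Egg : IsOpen (Egg m) := isOpen_lt contDiff_rho.continuous continuous_const

lemma normsq_line (a b : ℂ) (t : ℝ) :
    ‖a + t • b‖ ^ 2 = ‖a‖ ^ 2 + 2 * t * ((starRingEnd ℂ) a * b).re + t ^ 2 * ‖b‖ ^ 2 := by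
  simp only [← Complex.normSq_eq_norm_sq, Complex.normSq_apply, Complex.add_re, Complex.add_im,
    Complex.real_smul, Complex.mul_re, Complex.mul_im, Complex.ofReal_re, Complex.ofReal_im,
    Complex.conj_re, Complex.conj_im]
  ring

/-- `B x v = Re ∑_{j < n-1} x̄_j v_j` -/
noncomputable def B (x v : Cn (m + 2)) : ℝ :=
  ∑ j : Fin (m + 1), ((starRingEnd ℂ) (x j.castSucc) * v j.castSucc).re

/-- `b x v = Re x̄_{n-1} v_{n-1}` -/
noncomputable def b (x v : Cn (m + 2)) : ℝ := ((starRingEnd ℂ) (la x) * la v).re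

lemma rho_line (x v : Cn (m + 2)) (t : ℝ) : rho (x + t • v) =
    (S x + 2 * t * B x v + t ^ 2 * S v) + (‖la x‖ ^ 2 + 2 * t * b x v + t ^ 2 * ‖la v‖ ^ 2) ^ 2
      - 1 := by
  unfold rho
  have h1 : S (x + t • v) = S x + 2 * t * B x v + t ^ 2 * S v := by
    unfold S B
    rw [Finset.mul_sum, Finset.mul_sum, ← Finset.sum_add_distrib, ← Finset.sum_add_distrib]
    refine Finset.sum_congr rfl fun j _ => ?_
    have := normsq_line (x j.castSucc) (v j.castSucc) t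
    simpa using this
  have h2 : ‖la (x + t • v)‖ ^ 4 = (‖la x‖ ^ 2 + 2 * t * b x v + t ^ 2 * ‖la v‖ ^ 2) ^ 2 := by
    have := normsq_line (la x) (la v) t
    unfold b
    rw [← this]
    have h3 : la (x + t • v) = la x + t • la v := by simp [la]
    rw [h3]; ring
  rw [h1, h2]

lemma hasDerivAt_line {f : Cn (m + 2) → ℝ} {x v : Cn (m + 2)} (hf : DifferentiableAt ℝ f x) :
    HasDerivAt (fun t : ℝ => f (x + t • v)) (fderiv ℝ f x v) 0 := by
  have h2 : HasDerivAt (fun t : ℝ => x + t • v) v 0 := by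
    simpa using ((hasDerivAt_id (0 : ℝ)).smul_const v).const_add x
  have h1 : HasFDerivAt f (fderiv ℝ f x) (x + (0 : ℝ) • v) := by
    simpa using hf.hasFDerivAt
  exact h1.comp_hasDerivAt 0 h2

lemma fderiv_rho (x v : Cn (m + 2)) :
    fderiv ℝ rho x v = 2 * B x v + 4 * ‖la x‖ ^ 2 * b x v := by
  have h1 := hasDerivAt_line (v := v) ((contDiff_rho (m := m)).differentiable (by simp) x)
  have h2 : HasDerivAt (fun t : ℝ => rho (x + t • v)) (2 * B x v + 4 * ‖la x‖ ^ 2 * b x v) 0 := by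
    simp only [rho_line]
    have e1 : HasDerivAt (fun t : ℝ => S x + 2 * t * B x v + t ^ 2 * S v) (2 * B x v) 0 := by
      have a1 : HasDerivAt (fun t : ℝ => 2 * t * B x v) (2 * 1 * B x v) 0 :=
        ((hasDerivAt_id (0:ℝ)).const_mul 2).mul_const _
      have a2 : HasDerivAt (fun t : ℝ => t ^ 2 * S v) (((2 : ℕ) : ℝ) * (0:ℝ) ^ (2 - 1) * S v) 0 :=
        (hasDerivAt_pow 2 (0:ℝ)).mul_const _
      have a3 := (a1.const_add (S x)).add a2
      exact a3.congr_deriv (by simp)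
    have e2 : HasDerivAt (fun t : ℝ => ‖la x‖ ^ 2 + 2 * t * b x v + t ^ 2 * ‖la v‖ ^ 2)
        (2 * b x v) 0 := by
      have a1 : HasDerivAt (fun t : ℝ => 2 * t * b x v) (2 * 1 * b x v) 0 :=
        ((hasDerivAt_id (0:ℝ)).const_mul 2).mul_const _
      have a2 : HasDerivAt (fun t : ℝ => t ^ 2 * ‖la v‖ ^ 2)
          (((2 : ℕ) : ℝ) * (0:ℝ) ^ (2 - 1) * ‖la v‖ ^ 2) 0 :=
        (hasDerivAt_pow 2 (0:ℝ)).mul_const _
      have a3 := (a1.const_add (‖la x‖ ^ 2)).add a2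
      exact a3.congr_deriv (by simp)
    have e3 := (e1.add (e2.pow 2)).sub_const 1
    refine e3.congr_deriv ?_
    simp
    ring
  exact h1.unique h2

lemma second_line {f : Cn (m + 2) → ℝ} {q v : Cn (m + 2)}
    (hf : DifferentiableAt ℝ (fderiv ℝ f) q) :
    HasDerivAt (fun t : ℝ => fderiv ℝ f (q + t • v) v) (fderiv ℝ (fderiv ℝ f) q v v) 0 := by
  have h2 : HasDerivAt (fun t : ℝ => q + t • v) v 0 := by
    simpa using ((hasDerivAt_id (0 : ℝ)).smul_const v).const_add q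
  have h1 : HasFDerivAt (fderiv ℝ f) (fderiv ℝ (fderiv ℝ f) q) (q + (0 : ℝ) • v) := by
    simpa using hf.hasFDerivAt
  have h3 := h1.comp_hasDerivAt 0 h2
  have h4 := h3.clm_apply (hasDerivAt_const (0:ℝ) v)
  simpa using h4

lemma B_line (q v : Cn (m + 2)) (t : ℝ) : B (q + t • v) v = B q v + t * S v := by
  unfold B S
  rw [Finset.mul_sum, ← Finset.sum_add_distrib]
  refine Finset.sum_congr rfl fun j _ => ?_
  simp only [PiLp.add_apply, PiLp.smul_apply, ← Complex.normSq_eq_norm_sq, Complex.normSq_apply,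
    Complex.real_smul, Complex.mul_re, Complex.mul_im, Complex.ofReal_re, Complex.ofReal_im,
    Complex.conj_re, Complex.conj_im, Complex.add_re, Complex.add_im, map_add, map_mul]
  ring

lemma b_line (q v : Cn (m + 2)) (t : ℝ) : b (q + t • v) v = b q v + t * ‖la v‖ ^ 2 := by
  unfold b la
  simp only [PiLp.add_apply, PiLp.smul_apply, ← Complex.normSq_eq_norm_sq, Complex.normSq_apply,
    Complex.real_smul, Complex.mul_re, Complex.mul_im, Complex.ofReal_re, Complex.ofReal_im,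
    Complex.conj_re, Complex.conj_im, Complex.add_re, Complex.add_im, map_add, map_mul]
  ring

lemma la_line (q v : Cn (m + 2)) (t : ℝ) :
    ‖la (q + t • v)‖ ^ 2 = ‖la q‖ ^ 2 + 2 * t * b q v + t ^ 2 * ‖la v‖ ^ 2 := by
  have := normsq_line (la q) (la v) t
  have h3 : la (q + t • v) = la q + t • la v := by simp [la]
  rw [h3, this]
  rfl

lemma differentiable_fderiv_rho : Differentiable ℝ (fderiv ℝ (rho (m := m))) := by
  have h : ContDiff ℝ 1 (fderiv ℝ (rho (m := m))) :=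
    (contDiff_rho (m := m)).fderiv_right (by norm_cast)
  exact h.differentiable (by simp)

lemma second_rho (q v : Cn (m + 2)) : fderiv ℝ (fderiv ℝ rho) q v v =
    2 * S v + 8 * b q v ^ 2 + 4 * ‖la q‖ ^ 2 * ‖la v‖ ^ 2 := by
  have h1 := second_line (v := v) (differentiable_fderiv_rho (m := m) q)
  have h2 : HasDerivAt (fun t : ℝ => fderiv ℝ rho (q + t • v) v)
      (2 * S v + 8 * b q v ^ 2 + 4 * ‖la q‖ ^ 2 * ‖la v‖ ^ 2) 0 := by
    simp only [fderiv_rho, B_line, b_line, la_line]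
    have e1 : HasDerivAt (fun t : ℝ => 2 * (B q v + t * S v)) (2 * (1 * S v)) 0 :=
      (((hasDerivAt_id (0:ℝ)).mul_const (S v)).const_add _).const_mul 2
    have e2 : HasDerivAt (fun t : ℝ => ‖la q‖ ^ 2 + 2 * t * b q v + t ^ 2 * ‖la v‖ ^ 2)
        (2 * b q v) 0 := by
      have a1 : HasDerivAt (fun t : ℝ => 2 * t * b q v) (2 * 1 * b q v) 0 :=
        ((hasDerivAt_id (0:ℝ)).const_mul 2).mul_const _
      have a2 : HasDerivAt (fun t : ℝ => t ^ 2 * ‖la v‖ ^ 2)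
          (((2 : ℕ) : ℝ) * (0:ℝ) ^ (2 - 1) * ‖la v‖ ^ 2) 0 :=
        (hasDerivAt_pow 2 (0:ℝ)).mul_const _
      have a3 := (a1.const_add (‖la q‖ ^ 2)).add a2
      exact a3.congr_deriv (by simp)
    have e3 : HasDerivAt (fun t : ℝ => b q v + t * ‖la v‖ ^ 2) (1 * ‖la v‖ ^ 2) 0 :=
      ((hasDerivAt_id (0:ℝ)).mul_const (‖la v‖ ^ 2)).const_add _
    have e4 := e1.add ((e2.const_mul 4).mul e3)
    refine e4.congr_deriv ?_
    simp
    ring
  exact h1.unique h2

lemma levi_rho (q v : Cn (m + 2)) : levi rho q v = 4 * S v + 16 * ‖la q‖ ^ 2 * ‖la v‖ ^ 2 := by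
  unfold levi
  rw [second_rho, second_rho]
  have h1 : S (Complex.I • v) = S v := by
    unfold S
    refine Finset.sum_congr rfl fun j _ => ?_
    simp
  have h2 : la (Complex.I • v) = Complex.I * la v := by simp [la]
  have h3 : ‖la (Complex.I • v)‖ = ‖la v‖ := by rw [h2]; simp
  have h4 : b q v ^ 2 + b q (Complex.I • v) ^ 2 = ‖la q‖ ^ 2 * ‖la v‖ ^ 2 := by
    unfold b
    rw [h2]
    simp only [← Complex.normSq_eq_norm_sq, Complex.normSq_apply, Complex.mul_re, Complex.mul_im,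
      Complex.conj_re, Complex.conj_im, Complex.I_re, Complex.I_im]
    ring
  rw [h1, h3]
  nlinarith [h4]

lemma fderiv_rho_ne {x : Cn (m + 2)} (hx : x ≠ 0) : fderiv ℝ rho x ≠ 0 := by
  intro h
  have h1 := fderiv_rho x x
  rw [h] at h1
  have hB : B x x = S x := by
    unfold B S
    refine Finset.sum_congr rfl fun j _ => ?_
    rw [← Complex.normSq_eq_norm_sq, Complex.normSq_apply]
    simp
  have hb : b x x = ‖la x‖ ^ 2 := by
    unfold b
    rw [← Complex.normSq_eq_norm_sq, Complex.normSq_apply]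
    simp
  rw [hB, hb] at h1
  simp only [zero_apply] at h1
  have h2 := S_nonneg x
  have h3 : 0 ≤ ‖la x‖ ^ 2 * ‖la x‖ ^ 2 := by positivity
  have h4 : S x = 0 := by nlinarith
  have h5 : ‖la x‖ ^ 2 * ‖la x‖ ^ 2 = 0 := by nlinarith
  have h6 : ‖la x‖ ^ 2 = 0 := by simpa using mul_self_eq_zero.mp h5
  have h7 := norm_sq_eq x
  rw [h4, h6] at h7
  exact hx (norm_eq_zero.mp (by simpa using h7))

lemma isDefining_rho {p : Cn (m + 2)} (hp : p ≠ 0) :
    IsDefining (Egg m) p ({0}ᶜ) (rho (m := m)) :=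
  ⟨isOpen_compl_singleton, hp, contDiff_rho.contDiffOn, fun _ hz => fderiv_rho_ne hz,
    fun _ _ => Iff.rfl⟩

lemma leviPseudoconvexOn_rho (U : Set (Cn (m + 2))) : LeviPseudoconvexOn U (rho (m := m)) := by
  intro q _ _ v _
  rw [levi_rho]
  have := S_nonneg v
  positivity

/-- The holomorphic function in the lower bound for `rho`. -/
noncomputable def hol (q x : Cn (m + 2)) : ℂ :=
  2 * (∑ j : Fin (m + 1), (starRingEnd ℂ) (q j.castSucc) * (x j.castSucc - q j.castSucc) +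
    (starRingEnd ℂ) (la q ^ 2) * (la x ^ 2 - la q ^ 2))

lemma differentiable_hol (q : Cn (m + 2)) : Differentiable ℂ (hol q) := by
  unfold hol la
  fun_prop

lemma hol_self (q : Cn (m + 2)) : hol q q = 0 := by simp [hol]

lemma normsq_expand (a c : ℂ) :
    ‖a‖ ^ 2 = ‖c‖ ^ 2 + 2 * ((starRingEnd ℂ) c * (a - c)).re + ‖a - c‖ ^ 2 := by
  simp only [← Complex.normSq_eq_norm_sq, Complex.normSq_apply, Complex.sub_re, Complex.sub_im,
    Complex.mul_re, Complex.conj_re, Complex.conj_im]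
  ring

lemma rho_expand (q x : Cn (m + 2)) : rho x = rho q + (hol q x).re + S (x - q) +
    ‖la x ^ 2 - la q ^ 2‖ ^ 2 := by
  unfold rho hol
  have h1 : S x = S q + 2 * (∑ j : Fin (m + 1),
      (starRingEnd ℂ) (q j.castSucc) * (x j.castSucc - q j.castSucc)).re + S (x - q) := by
    unfold S
    rw [Complex.re_sum, Finset.mul_sum, ← Finset.sum_add_distrib, ← Finset.sum_add_distrib]
    refine Finset.sum_congr rfl fun j _ => ?_
    exact normsq_expand (x j.castSucc) (q j.castSucc)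
  have h2 : ‖la x‖ ^ 4 = ‖la q‖ ^ 4 + 2 * ((starRingEnd ℂ) (la q ^ 2) *
      (la x ^ 2 - la q ^ 2)).re + ‖la x ^ 2 - la q ^ 2‖ ^ 2 := by
    have := normsq_expand (la x ^ 2) (la q ^ 2)
    have e1 : ‖la x ^ 2‖ ^ 2 = ‖la x‖ ^ 4 := by rw [norm_pow]; ring
    have e2 : ‖la q ^ 2‖ ^ 2 = ‖la q‖ ^ 4 := by rw [norm_pow]; ring
    rw [e1, e2] at this
    exact this
  rw [h1, h2]
  have h3 : ∀ u w : ℂ, (2 * (u + w)).re = 2 * u.re + 2 * w.re := by
    intro u w; simp; ring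
  rw [h3]
  ring

end Egg

section Egg2

variable {m : ℕ}

lemma near_sq (c : ℂ) : ∀ᶠ a in 𝓝 c, ‖a - c‖ ^ 4 ≤ ‖a ^ 2 - c ^ 2‖ ^ 2 := by
  have key : ∀ a : ℂ, 0 ≤ ((starRingEnd ℂ) c * a).re → ‖a - c‖ ^ 4 ≤ ‖a ^ 2 - c ^ 2‖ ^ 2 := by
    intro a ha
    have h1 : a ^ 2 - c ^ 2 = (a - c) * (a + c) := by ring
    have h2 : ‖a - c‖ ^ 2 ≤ ‖a + c‖ ^ 2 := by
      simp only [← Complex.normSq_eq_norm_sq, Complex.normSq_apply, Complex.sub_re, Complex.sub_im,
        Complex.add_re, Complex.add_im, Complex.mul_re, Complex.conj_re, Complex.conj_im] at ha ⊢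
      nlinarith
    rw [h1, norm_mul, mul_pow]
    calc ‖a - c‖ ^ 4 = ‖a - c‖ ^ 2 * ‖a - c‖ ^ 2 := by ring
      _ ≤ ‖a - c‖ ^ 2 * ‖a + c‖ ^ 2 := mul_le_mul_of_nonneg_left h2 (by positivity)
  by_cases hc : c = 0
  · refine Eventually.of_forall fun a => key a ?_
    simp [hc]
  · have h1 : ContinuousAt (fun a : ℂ => ((starRingEnd ℂ) c * a).re) c := by fun_prop
    have h2 : 0 < ((starRingEnd ℂ) c * c).re := by
      have : ((starRingEnd ℂ) c * c).re = ‖c‖ ^ 2 := by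
        rw [← Complex.normSq_eq_norm_sq, Complex.normSq_apply]; simp
      rw [this]
      have := norm_pos_iff.mpr hc
      positivity
    filter_upwards [continuousAt_const.eventually_lt h1 h2] with a ha
    exact key a ha.le

lemma type_le_four {q : Cn (m + 2)} (hq : rho q = 0) : dAngeloType rho q ≤ 4 := by
  have h0 : dAngeloType rho q ≤ ((4 : ℕ) : ℝ≥0∞) := by
    apply dAngeloType_le_of_lower (differentiable_hol q) (hol_self q) (c := 1 / 2) (by norm_num)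
    have hla : Continuous (la (m := m)) := by unfold la; fun_prop
    have h1 : ∀ᶠ x in 𝓝 q, ‖la x - la q‖ ^ 4 ≤ ‖la x ^ 2 - la q ^ 2‖ ^ 2 :=
      hla.continuousAt.eventually (near_sq (la q))
    filter_upwards [h1, Metric.ball_mem_nhds q one_pos] with x hx hx1
    rw [rho_expand q x, hq]
    have h2 : la (x - q) = la x - la q := by simp [la]
    have h3 := norm_sq_eq (x - q)
    rw [h2] at h3
    have h4 := S_nonneg (x - q)
    have h5 : ‖x - q‖ < 1 := by rwa [← mem_ball_iff_norm]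
    have h6 : ‖x - q‖ ^ 2 ≤ 1 := by nlinarith [norm_nonneg (x - q)]
    have h7 : S (x - q) ≤ 1 := by nlinarith [sq_nonneg ‖la x - la q‖]
    have h8 : S (x - q) ^ 2 ≤ S (x - q) := by nlinarith
    have h9 : ‖x - q‖ ^ 4 = (S (x - q) + ‖la x - la q‖ ^ 2) ^ 2 := by rw [← h3]; ring
    have h10 : ‖la x - la q‖ ^ 4 = (‖la x - la q‖ ^ 2) ^ 2 := by ring
    rw [h9]
    rw [h10] at hx
    nlinarith [sq_nonneg (S (x - q) - ‖la x - la q‖ ^ 2)]
  exact_mod_cast h0

/-- The point `p = (1, 0, …, 0)`. -/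
noncomputable def pt (m : ℕ) : Cn (m + 2) := EuclideanSpace.single 0 1

/-- The last basis vector. -/
noncomputable def el (m : ℕ) : Cn (m + 2) := EuclideanSpace.single (Fin.last (m + 1)) 1

lemma last_ne : (Fin.last (m + 1)) ≠ 0 := by
  intro h
  have := congrArg Fin.val h
  simp at this

lemma S_eq (x : Cn (m + 2)) : S x = ‖x 0‖ ^ 2 + ∑ j : Fin m, ‖x j.castSucc.succ‖ ^ 2 := by
  unfold S
  rw [Fin.sum_univ_succ]
  rfl

lemma pt_zero : pt m 0 = 1 := by simp [pt]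
lemma pt_last : la (pt m) = 0 := by
  simp [pt, la]
lemma pt_mid (j : Fin m) : pt m j.castSucc.succ = 0 := by
  simp [pt]

lemma pt_ne : pt m ≠ 0 := by
  intro h
  have h1 := pt_zero (m := m)
  rw [h] at h1
  simp at h1

lemma rho_pt_smul (t : ℝ) : rho (t • pt m) = t ^ 2 - 1 := by
  unfold rho
  rw [S_eq]
  have h1 : la (t • pt m) = 0 := by
    have := pt_last (m := m)
    unfold la at this ⊢
    simp [this]
  rw [h1]
  simp [pt_zero, pt_mid]

lemma rho_pt : rho (pt m) = 0 := by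
  have := rho_pt_smul (m := m) 1
  simpa using this

lemma pt_mem_frontier : pt m ∈ frontier (Egg m) := by
  rw [isOpen_Egg.frontier_eq]
  refine ⟨?_, ?_⟩
  · have h1 : Tendsto (fun t : ℝ => t • pt m) (𝓝[<] 1) (𝓝 (pt m)) := by
      have : Continuous (fun t : ℝ => t • pt m) := by fun_prop
      have h2 := this.tendsto 1
      simp only [one_smul] at h2
      exact h2.mono_left nhdsWithin_le_nhds
    refine mem_closure_of_tendsto h1 ?_
    filter_upwards [Ioo_mem_nhdsLT (show (0:ℝ) < 1 by norm_num)] with t ht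
    show rho (t • pt m) < 0
    rw [rho_pt_smul]
    nlinarith [ht.1, ht.2]
  · intro h
    have : rho (pt m) < 0 := h
    rw [rho_pt] at this
    exact lt_irrefl _ this

/-- The domain is convex. -/
lemma convex_Egg : Convex ℝ (Egg m) := by
  have h1 : ∀ i : Fin (m + 2), ConvexOn ℝ univ (fun x : Cn (m + 2) => ‖x i‖) := by
    intro i
    refine ⟨convex_univ, fun x _ y _ a c ha hc _ => ?_⟩
    have h0 : (a • x + c • y) i = a • x i + c • y i := by simp
    show ‖(a • x + c • y) i‖ ≤ a * ‖x i‖ + c * ‖y i‖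
    rw [h0]
    refine (norm_add_le _ _).trans ?_
    rw [norm_smul, norm_smul, Real.norm_of_nonneg ha, Real.norm_of_nonneg hc]
  have h2 : ConvexOn ℝ univ (S (m := m)) := by
    unfold S
    have : (fun x : Cn (m + 2) => ∑ j : Fin (m + 1), ‖x j.castSucc‖ ^ 2) =
        ∑ j : Fin (m + 1), fun x : Cn (m + 2) => ‖x j.castSucc‖ ^ 2 := by
      ext x; simp
    rw [this]
    refine Finset.sum_induction _ (fun f => ConvexOn ℝ univ f) (fun f g hf hg => hf.add hg)
      (convexOn_const 0 convex_univ) fun j _ => ?_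
    exact (h1 _).pow (fun _ _ => norm_nonneg _) 2
  have h3 : ConvexOn ℝ univ (fun x : Cn (m + 2) => ‖la x‖ ^ 4) :=
    (h1 _).pow (fun _ _ => norm_nonneg _) 4
  have h4 : ConvexOn ℝ univ (rho (m := m)) := by
    have := (h2.add h3).add (convexOn_const (-1 : ℝ) convex_univ)
    refine this.congr ?_
    intro x _
    simp [rho]
    ring
  have := h4.convex_lt 0
  simpa [Egg] using this

lemma Egg_bounds {x : Cn (m + 2)} (hx : x ∈ Egg m) : S x < 1 ∧ ‖la x‖ < 1 ∧ ‖x 0‖ < 1 := by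
  have h : S x + ‖la x‖ ^ 4 - 1 < 0 := hx
  have h1 := S_nonneg x
  have h2 : 0 ≤ ‖la x‖ ^ 4 := by positivity
  refine ⟨by linarith, ?_, ?_⟩
  · by_contra hcon
    push Not at hcon
    have : 1 ≤ ‖la x‖ ^ 4 := one_le_pow₀ hcon
    linarith
  · have h3 : ‖x 0‖ ^ 2 ≤ S x := by
      rw [S_eq]
      have : 0 ≤ ∑ j : Fin m, ‖x j.castSucc.succ‖ ^ 2 :=
        Finset.sum_nonneg fun _ _ => by positivity
      linarith
    nlinarith [norm_nonneg (x 0)]

lemma bounded_Egg : Bornology.IsBounded (Egg m) := by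
  refine (Metric.isBounded_ball (x := (0 : Cn (m + 2))) (r := 2)).subset fun x hx => ?_
  obtain ⟨h1, h2, _⟩ := Egg_bounds hx
  rw [mem_ball_zero_iff]
  have h3 := norm_sq_eq x
  nlinarith [norm_nonneg x, norm_nonneg (la x)]

lemma zero_mem_Egg : (0 : Cn (m + 2)) ∈ Egg m := by
  show rho 0 < 0
  simp [rho, S, la]

lemma isConnected_Egg : IsConnected (Egg m) :=
  ⟨⟨0, zero_mem_Egg⟩, convex_Egg.isPreconnected⟩

/-- A `C^∞` local defining function vanishes at nearby boundary points. -/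
lemma defining_zero {n : ℕ} {D : Set (Cn n)} {p : Cn n} {U : Set (Cn n)} {r : Cn n → ℝ}
    (h : IsDefining D p U r) {z : Cn n} (hz : z ∈ U) (hf : z ∈ frontier D) : r z = 0 := by
  obtain ⟨hU, _, hr, _, hD⟩ := h
  have hcont : ContinuousAt r z := hr.continuousOn.continuousAt (hU.mem_nhds hz)
  rcases lt_trichotomy (r z) 0 with hlt | heq | hgt
  · exfalso
    have h1 : ∀ᶠ y in 𝓝 z, y ∈ U ∧ r y < 0 :=
      (hU.eventually_mem hz).and (hcont.eventually_lt continuousAt_const hlt)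
    have h2 : D ∈ 𝓝 z := by
      filter_upwards [h1] with y hy
      exact (hD y hy.1).2 hy.2
    exact hf.2 (mem_interior_iff_mem_nhds.mpr h2)
  · exact heq
  · exfalso
    have h1 : ∀ᶠ y in 𝓝 z, y ∈ U ∧ 0 < r y :=
      (hU.eventually_mem hz).and (continuousAt_const.eventually_lt hcont hgt)
    obtain ⟨y, hy1, hy2⟩ := ((mem_closure_iff_frequently.mp hf.1).and_eventually h1).exists
    exact absurd ((hD y hy2.1).1 hy1) (not_lt.mpr hy2.2.le)

/-- The curve `s ↦ (√(1 - s⁴), 0, …, 0, s u)` in the boundary, `|u| = 1`. -/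
noncomputable def cur (u : ℂ) (s : ℝ) : Cn (m + 2) := Real.sqrt (1 - s ^ 4) • pt m + (s • u) • el m

lemma rho_cur_aux (u : ℂ) (hu : ‖u‖ = 1) (c s : ℝ) :
    rho (c • pt m + (s • u) • el m) = c ^ 2 + s ^ 4 - 1 := by
  unfold rho
  rw [S_eq]
  have h1 : la (c • pt m + (s • u) • el m) = s • u := by
    have := pt_last (m := m)
    unfold la at this ⊢
    simp [this, el]
  have h2 : (c • pt m + (s • u) • el m) 0 = c := by
    have : (0 : Fin (m + 2)) ≠ Fin.last (m + 1) := fun h => last_ne h.symm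
    simp [pt_zero, el, this]
  have h3 : ∀ j : Fin m, (c • pt m + (s • u) • el m) j.castSucc.succ = 0 := by
    intro j
    have : (j.castSucc.succ : Fin (m + 2)) ≠ Fin.last (m + 1) := by
      rw [Fin.succ_castSucc]; exact (Fin.castSucc_lt_last _).ne
    simp [pt_mid, el, this]
  rw [h1, h2]
  simp only [h3]
  simp only [norm_zero, Complex.norm_real, Real.norm_eq_abs, sq_abs, norm_smul, hu, mul_one]
  have h4 : |s| ^ 4 = s ^ 4 := by
    rw [show (4 : ℕ) = 2 * 2 from rfl, pow_mul, sq_abs, ← pow_mul]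
  rw [h4]
  simp

lemma cur_mem (u : ℂ) (hu : ‖u‖ = 1) {s : ℝ} (hs : |s| < 1) : cur (m := m) u s ∈ frontier (Egg m) := by
  have hs4 : 0 < 1 - s ^ 4 := by
    have h1 : s ^ 2 < 1 := by rw [← sq_abs]; nlinarith [abs_nonneg s]
    nlinarith [sq_nonneg s]
  rw [isOpen_Egg.frontier_eq]
  have hsq : Real.sqrt (1 - s ^ 4) ^ 2 = 1 - s ^ 4 := Real.sq_sqrt hs4.le
  refine ⟨?_, ?_⟩
  · have h1 : Tendsto (fun t : ℝ => (t * Real.sqrt (1 - s ^ 4)) • pt m + (s • u) • el m) (𝓝[<] 1)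
        (𝓝 (cur u s)) := by
      have : Continuous (fun t : ℝ => (t * Real.sqrt (1 - s ^ 4)) • pt m + (s • u) • el m) := by
        fun_prop
      have h2 := this.tendsto 1
      simp only [one_mul] at h2
      exact h2.mono_left nhdsWithin_le_nhds
    refine mem_closure_of_tendsto h1 ?_
    filter_upwards [Ioo_mem_nhdsLT (show (0:ℝ) < 1 by norm_num)] with t ht
    show rho _ < 0
    rw [rho_cur_aux u hu, mul_pow, hsq]
    nlinarith [ht.1, ht.2, mul_pos (sub_pos.2 ht.2) hs4]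
  · intro h
    have : rho (cur (m := m) u s) < 0 := h
    unfold cur at this
    rw [rho_cur_aux u hu, hsq] at this
    linarith

lemma deriv_cur (u : ℂ) {s : ℝ} (hs : |s| < 1) :
    HasDerivAt (cur (m := m) u) ((-(2 * s ^ 3) / Real.sqrt (1 - s ^ 4)) • pt m + u • el m) s := by
  have hs4 : 0 < 1 - s ^ 4 := by
    have h1 : s ^ 2 < 1 := by rw [← sq_abs]; nlinarith [abs_nonneg s]
    nlinarith [sq_nonneg s]
  have h1 : HasDerivAt (fun s : ℝ => 1 - s ^ 4) (-(((4 : ℕ) : ℝ) * s ^ (4 - 1))) s :=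
    (hasDerivAt_pow 4 s).const_sub 1
  have h2 := (h1.sqrt hs4.ne').smul_const (pt m)
  have h3 : HasDerivAt (fun s : ℝ => (s • u) • el m) (((1 : ℝ) • u) • el m) s := by
    exact ((hasDerivAt_id s).smul_const u).smul_const (el m)
  have h4 := h2.add h3
  refine h4.congr_deriv ?_
  rw [one_smul]
  congr 2
  norm_num
  field_simp
  ring

/-- `p` is not a strongly pseudoconvex boundary point. -/
lemma not_strongly : ¬ StronglyPseudoconvexAt (Egg m) (pt m) := by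
  rintro ⟨U, r, hdef, hpos⟩
  obtain ⟨hU, hpU, hr, hgrad, hD⟩ := id hdef
  have hcur0 : ∀ u : ℂ, cur (m := m) u 0 = pt m := by intro u; simp [cur]
  -- for every unit `u` the first and second derivatives in the direction `u • e` vanish
  have key : ∀ u : ℂ, ‖u‖ = 1 → fderiv ℝ r (pt m) (u • el m) = 0 ∧
      fderiv ℝ (fderiv ℝ r) (pt m) (u • el m) (u • el m) = 0 := by
    intro u hu
    have hc0 : ContinuousAt (cur (m := m) u) 0 := (deriv_cur u (by simp)).continuousAt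
    have hUev : ∀ᶠ s in 𝓝 (0:ℝ), cur (m := m) u s ∈ U := by
      have := hU.mem_nhds hpU
      rw [← hcur0 u] at this
      exact hc0 this
    have hsm : ∀ᶠ s in 𝓝 (0:ℝ), |s| < 1 := by
      have h1 : ContinuousAt (fun s : ℝ => |s|) 0 := continuous_abs.continuousAt
      apply h1.eventually_lt continuousAt_const
      simp
    have hzero : ∀ᶠ s in 𝓝 (0:ℝ), r (cur u s) = 0 := by
      filter_upwards [hUev, hsm] with s h1 h2
      exact defining_zero hdef h1 (cur_mem u hu h2)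
    set w : ℝ → Cn (m + 2) := fun s => (-(2 * s ^ 3) / Real.sqrt (1 - s ^ 4)) • pt m + u • el m
      with hw
    have hdr : ∀ᶠ s in 𝓝 (0:ℝ), fderiv ℝ r (cur u s) (w s) = 0 := by
      filter_upwards [hUev, hsm, hzero.eventually_nhds] with s h1 h2 h3
      have h4 : HasFDerivAt r (fderiv ℝ r (cur u s)) (cur u s) :=
        ((hr.differentiableOn (by simp)).differentiableAt (hU.mem_nhds h1)).hasFDerivAt
      have h5 := h4.comp_hasDerivAt s (deriv_cur u h2)
      have h6 : HasDerivAt (fun s => r (cur (m := m) u s)) 0 s := by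
        have : (fun s => r (cur (m := m) u s)) =ᶠ[𝓝 s] fun _ => 0 := h3
        exact (hasDerivAt_const s (0:ℝ)).congr_of_eventuallyEq this
      exact h5.unique h6
    have hw0 : w 0 = u • el m := by simp [hw]
    refine ⟨?_, ?_⟩
    · have := hdr.self_of_nhds
      rwa [hcur0, hw0] at this
    · have hcd : ContDiffOn ℝ 1 (fderiv ℝ r) U := hr.fderiv_of_isOpen hU (by norm_cast)
      have h1 : HasFDerivAt (fderiv ℝ r) (fderiv ℝ (fderiv ℝ r) (pt m)) (cur (m := m) u 0) := by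
        rw [hcur0]
        exact ((hcd.differentiableOn (by simp)).differentiableAt (hU.mem_nhds hpU)).hasFDerivAt
      have h2 := h1.comp_hasDerivAt 0 (deriv_cur (m := m) u (s := 0) (by simp))
      have h3 : HasDerivAt w 0 0 := by
        have e1 : HasDerivAt (fun s : ℝ => -(2 * s ^ 3)) (-(2 * (((3:ℕ):ℝ) * (0:ℝ) ^ (3 - 1)))) 0 :=
          ((hasDerivAt_pow 3 (0:ℝ)).const_mul 2).neg
        have e2 : HasDerivAt (fun s : ℝ => Real.sqrt (1 - s ^ 4))
            (-(((4 : ℕ) : ℝ) * (0:ℝ) ^ (4 - 1)) / (2 * Real.sqrt (1 - (0:ℝ) ^ 4))) 0 := by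
          have : HasDerivAt (fun s : ℝ => 1 - s ^ 4) (-(((4 : ℕ) : ℝ) * (0:ℝ) ^ (4 - 1))) 0 :=
            (hasDerivAt_pow 4 (0:ℝ)).const_sub 1
          exact this.sqrt (by simp)
        have e3 := ((e1.div e2 (by simp)).smul_const (pt m)).add_const (u • el m)
        refine e3.congr_deriv ?_
        simp
      have h4 := h2.clm_apply h3
      have h5 : HasDerivAt (fun s => fderiv ℝ r (cur (m := m) u s) (w s)) 0 0 := by
        have : (fun s => fderiv ℝ r (cur (m := m) u s) (w s)) =ᶠ[𝓝 0] fun _ => 0 := hdr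
        exact (hasDerivAt_const (0:ℝ) (0:ℝ)).congr_of_eventuallyEq this
      have h6 := h4.unique h5
      simpa [hw] using h6
  have hne : (1 : ℂ) • el m ≠ 0 := by
    rw [one_smul]
    intro h
    have h1 : el m (Fin.last (m + 1)) = 1 := by simp [el]
    rw [h] at h1
    simp at h1
  obtain ⟨k1, k2⟩ := key 1 (by simp)
  obtain ⟨k3, k4⟩ := key Complex.I (by simp)
  have hI : Complex.I • ((1 : ℂ) • el m) = Complex.I • el m := by rw [one_smul]
  have h := hpos ((1 : ℂ) • el m) hne ⟨k1, by rw [hI]; exact k3⟩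
  unfold levi at h
  rw [hI, k2, k4] at h
  simp at h

end Egg2

section Maps

variable {m : ℕ}

/-- A square root on the slit plane. -/
noncomputable def csq (z : ℂ) : ℂ := Complex.exp (Complex.log z / 2)

lemma csq_sq {z : ℂ} (hz : z ≠ 0) : csq z ^ 2 = z := by
  unfold csq
  rw [← Complex.exp_nat_mul]
  have : ((2 : ℕ) : ℂ) * (Complex.log z / 2) = Complex.log z := by push_cast; ring
  rw [this, Complex.exp_log hz]

lemma csq_ne (z : ℂ) : csq z ≠ 0 := Complex.exp_ne_zero _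

lemma csq_diff {z : ℂ} (hz : 0 < z.re) : DifferentiableAt ℂ csq z := by
  unfold csq
  have : z ∈ Complex.slitPlane := Or.inl hz
  fun_prop (disch := assumption)

/-- The automorphism of the egg moving `a` to `0` in the first coordinate. -/
noncomputable def Psi (a : ℝ) (x : Cn (m + 2)) : Cn (m + 2) := WithLp.toLp 2 fun j =>
  if j = 0 then (x 0 - a) / (1 - a * x 0)
  else if j = Fin.last (m + 1) then (Real.sqrt (Real.sqrt (1 - a ^ 2)) : ℂ) * la x / csq (1 - a * x 0)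
  else (Real.sqrt (1 - a ^ 2) : ℂ) * x j / (1 - a * x 0)

/-- The inverse of `Psi a`. -/
noncomputable def PsiInv (a : ℝ) (y : Cn (m + 2)) : Cn (m + 2) := WithLp.toLp 2 fun j =>
  if j = 0 then (y 0 + a) / (1 + a * y 0)
  else if j = Fin.last (m + 1) then
    la y * csq (1 - a * ((y 0 + a) / (1 + a * y 0))) / (Real.sqrt (Real.sqrt (1 - a ^ 2)) : ℂ)
  else (Real.sqrt (1 - a ^ 2) : ℂ) * y j / (1 + a * y 0)

/-- The ball automorphism (composed with a dilation of the first coordinates). -/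
noncomputable def Phi (t : ℝ) (x : Cn (m + 2)) : Cn (m + 2) := WithLp.toLp 2 fun j =>
  if j = Fin.last (m + 1) then (la x - t) / (1 - t * la x)
  else (Real.sqrt ((1 - t ^ 2) / 2) : ℂ) * x j / (1 - t * la x)

/-- The inverse of `Phi t`. -/
noncomputable def PhiInv (t : ℝ) (y : Cn (m + 2)) : Cn (m + 2) := WithLp.toLp 2 fun j =>
  if j = Fin.last (m + 1) then (la y + t) / (1 + t * la y)
  else y j * (1 - t * ((la y + t) / (1 + t * la y))) / (Real.sqrt ((1 - t ^ 2) / 2) : ℂ)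

lemma re_pos_of {a : ℝ} (ha0 : 0 ≤ a) (ha : a < 1) {z : ℂ} (hz : ‖z‖ < 1) : 0 < (1 - a * z).re := by
  have h1 : z.re ≤ ‖z‖ := Complex.re_le_norm z
  simp
  nlinarith

lemma re_pos_of' {a : ℝ} (ha0 : 0 ≤ a) (ha : a < 1) {z : ℂ} (hz : ‖z‖ < 1) : 0 < (1 + a * z).re := by
  have h1 : -z.re ≤ ‖z‖ := (neg_le_abs _).trans (Complex.abs_re_le_norm z)
  simp
  nlinarith

lemma ne_of_re_pos {z : ℂ} (h : 0 < z.re) : z ≠ 0 := by
  rintro rfl
  simp at h

lemma mobius_id (a : ℝ) (z : ℂ) : ‖z - a‖ ^ 2 = ‖1 - a * z‖ ^ 2 - (1 - a ^ 2) * (1 - ‖z‖ ^ 2) := by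
  simp only [← Complex.normSq_eq_norm_sq, Complex.normSq_apply, Complex.sub_re, Complex.sub_im,
    Complex.mul_re, Complex.mul_im, Complex.ofReal_re, Complex.ofReal_im, Complex.one_re,
    Complex.one_im]
  ring

lemma mobius_id' (a : ℝ) (z : ℂ) : ‖z + a‖ ^ 2 = ‖1 + a * z‖ ^ 2 - (1 - a ^ 2) * (1 - ‖z‖ ^ 2) := by
  simp only [← Complex.normSq_eq_norm_sq, Complex.normSq_apply, Complex.add_re, Complex.add_im,
    Complex.mul_re, Complex.mul_im, Complex.ofReal_re, Complex.ofReal_im, Complex.one_re,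
    Complex.one_im]
  ring

lemma mobius_lt {a : ℝ} (ha0 : 0 ≤ a) (ha : a < 1) {z : ℂ} (hz : ‖z‖ < 1) :
    ‖(z + a) / (1 + a * z)‖ < 1 := by
  have h1 := ne_of_re_pos (re_pos_of' ha0 ha hz)
  have h2 : 0 < ‖1 + a * z‖ := norm_pos_iff.mpr h1
  rw [norm_div, div_lt_one h2]
  have h3 := mobius_id' a z
  have h4 : 0 < (1 - a ^ 2) * (1 - ‖z‖ ^ 2) := by
    have : 0 < 1 - a ^ 2 := by nlinarith
    have : 0 < 1 - ‖z‖ ^ 2 := by nlinarith [norm_nonneg z]
    positivity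
  nlinarith [norm_nonneg (z + a)]

lemma mob_aux {z a u : ℂ} (hu : u ≠ 0) (hd : (1 - a ^ 2) ≠ 0) (h : u = 1 - a * z) :
    ((z - a) / u + a) / ((1 - a ^ 2) / u) = z := by
  have : ((z - a) / u + a) / ((1 - a ^ 2) / u) = ((z - a) + a * u) / (1 - a ^ 2) := by field_simp
  rw [this, h, div_eq_iff hd]; ring

lemma mob_aux' {z a u : ℂ} (hu : u ≠ 0) (hd : (1 - a ^ 2) ≠ 0) (h : u = 1 + a * z) :
    ((z + a) / u - a) / ((1 - a ^ 2) / u) = z := by
  have : ((z + a) / u - a) / ((1 - a ^ 2) / u) = ((z + a) - a * u) / (1 - a ^ 2) := by field_simp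
  rw [this, h, div_eq_iff hd]; ring

lemma zero_ne_last : (0 : Fin (m + 2)) ≠ Fin.last (m + 1) := fun h => last_ne h.symm
lemma mid_ne_last (j : Fin m) : (j.castSucc.succ : Fin (m + 2)) ≠ Fin.last (m + 1) := by
  rw [Fin.succ_castSucc]; exact (Fin.castSucc_lt_last _).ne
lemma mid_ne_zero (j : Fin m) : (j.castSucc.succ : Fin (m + 2)) ≠ 0 := Fin.succ_ne_zero _

lemma Psi_zero (a : ℝ) (x : Cn (m + 2)) : Psi a x 0 = (x 0 - a) / (1 - a * x 0) := by simp [Psi]
lemma Psi_last (a : ℝ) (x : Cn (m + 2)) : la (Psi a x) =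
    (Real.sqrt (Real.sqrt (1 - a ^ 2)) : ℂ) * la x / csq (1 - a * x 0) := by
  unfold la Psi
  simp only [if_neg (last_ne (m := m)), if_true]
  rfl
lemma Psi_mid (a : ℝ) (x : Cn (m + 2)) (j : Fin m) : Psi a x j.castSucc.succ =
    (Real.sqrt (1 - a ^ 2) : ℂ) * x j.castSucc.succ / (1 - a * x 0) := by
  unfold Psi
  simp only [if_neg (mid_ne_zero j), if_neg (mid_ne_last j)]

/-- `rho` is multiplied by a positive function under `Psi`. -/
lemma rho_Psi {a : ℝ} (ha0 : 0 ≤ a) (ha : a < 1) {x : Cn (m + 2)} (hx : ‖x 0‖ < 1) :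
    rho (Psi a x) * ‖1 - a * x 0‖ ^ 2 = (1 - a ^ 2) * rho x := by
  have hu := ne_of_re_pos (re_pos_of ha0 ha hx)
  have hu' : 0 < ‖1 - a * x 0‖ := norm_pos_iff.mpr hu
  have h1a : 0 ≤ 1 - a ^ 2 := by nlinarith
  unfold rho
  rw [S_eq (Psi a x), S_eq x, Psi_zero, Psi_last]
  simp only [Psi_mid]
  have e1 : ‖(x 0 - a) / (1 - a * x 0)‖ ^ 2 * ‖1 - a * x 0‖ ^ 2 = ‖x 0 - a‖ ^ 2 := by
    rw [norm_div, div_pow]
    exact div_mul_cancel₀ _ (pow_ne_zero 2 hu'.ne')
  have e2 : (∑ j : Fin m, ‖(Real.sqrt (1 - a ^ 2) : ℂ) * x j.castSucc.succ / (1 - a * x 0)‖ ^ 2)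
      * ‖1 - a * x 0‖ ^ 2 = (1 - a ^ 2) * ∑ j : Fin m, ‖x j.castSucc.succ‖ ^ 2 := by
    rw [Finset.sum_mul, Finset.mul_sum]
    refine Finset.sum_congr rfl fun j _ => ?_
    rw [norm_div, div_pow, norm_mul, mul_pow, Complex.norm_real,
      Real.norm_of_nonneg (Real.sqrt_nonneg _), Real.sq_sqrt h1a]
    field_simp
  have e3 : ‖(Real.sqrt (Real.sqrt (1 - a ^ 2)) : ℂ) * la x / csq (1 - a * x 0)‖ ^ 4 *
      ‖1 - a * x 0‖ ^ 2 = (1 - a ^ 2) * ‖la x‖ ^ 4 := by
    have h1 : ‖csq (1 - a * x 0)‖ ^ 4 = ‖1 - a * x 0‖ ^ 2 := by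
      have := csq_sq hu
      have h2 : ‖csq (1 - a * x 0)‖ ^ 2 = ‖1 - a * x 0‖ := by rw [← norm_pow, this]
      rw [← h2]; ring
    have h3 : Real.sqrt (Real.sqrt (1 - a ^ 2)) ^ 4 = 1 - a ^ 2 := by
      have h4 : Real.sqrt (Real.sqrt (1 - a ^ 2)) ^ 2 = Real.sqrt (1 - a ^ 2) :=
        Real.sq_sqrt (Real.sqrt_nonneg _)
      have h5 : Real.sqrt (1 - a ^ 2) ^ 2 = 1 - a ^ 2 := Real.sq_sqrt h1a
      calc Real.sqrt (Real.sqrt (1 - a ^ 2)) ^ 4 = (Real.sqrt (Real.sqrt (1 - a ^ 2)) ^ 2) ^ 2 := by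
            ring
        _ = _ := by rw [h4, h5]
    rw [norm_div, div_pow, norm_mul, mul_pow, Complex.norm_real,
      Real.norm_of_nonneg (Real.sqrt_nonneg _), h1, h3]
    field_simp
  have e4 := mobius_id a (x 0)
  have : (‖(x 0 - a) / (1 - a * x 0)‖ ^ 2 + ∑ j : Fin m,
      ‖(Real.sqrt (1 - a ^ 2) : ℂ) * x j.castSucc.succ / (1 - a * x 0)‖ ^ 2 +
      ‖(Real.sqrt (Real.sqrt (1 - a ^ 2)) : ℂ) * la x / csq (1 - a * x 0)‖ ^ 4 - 1) *
      ‖1 - a * x 0‖ ^ 2 = ‖x 0 - a‖ ^ 2 + (1 - a ^ 2) * ∑ j : Fin m, ‖x j.castSucc.succ‖ ^ 2 +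
      (1 - a ^ 2) * ‖la x‖ ^ 4 - ‖1 - a * x 0‖ ^ 2 := by
    rw [← e1, ← e2, ← e3]; ring
  rw [this, e4]
  ring

lemma Psi_mem {a : ℝ} (ha0 : 0 ≤ a) (ha : a < 1) {x : Cn (m + 2)} (hx : x ∈ Egg m) :
    Psi a x ∈ Egg m := by
  have h0 := (Egg_bounds hx).2.2
  have h1 := rho_Psi ha0 ha h0
  have hu' : 0 < ‖1 - a * x 0‖ ^ 2 := by
    have := norm_pos_iff.mpr (ne_of_re_pos (re_pos_of ha0 ha h0))
    positivity
  have h2 : (1 - a ^ 2) * rho x < 0 := mul_neg_of_pos_of_neg (by nlinarith) hx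
  rw [← h1] at h2
  exact neg_of_mul_neg_left h2 hu'.le

lemma sq4_pos {a : ℝ} (ha0 : 0 ≤ a) (ha : a < 1) : 0 < Real.sqrt (Real.sqrt (1 - a ^ 2)) :=
  Real.sqrt_pos.2 (Real.sqrt_pos.2 (by nlinarith))

lemma sq4_ne {a : ℝ} (ha0 : 0 ≤ a) (ha : a < 1) :
    (Real.sqrt (Real.sqrt (1 - a ^ 2)) : ℂ) ≠ 0 := by
  exact_mod_cast (sq4_pos ha0 ha).ne'

lemma sq2_mul {a : ℝ} (ha0 : 0 ≤ a) (ha : a < 1) :
    (Real.sqrt (1 - a ^ 2) : ℂ) * (Real.sqrt (1 - a ^ 2) : ℂ) = 1 - (a : ℂ) ^ 2 := by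
  rw [← Complex.ofReal_mul, Real.mul_self_sqrt (by nlinarith)]
  push_cast
  ring

lemma one_sub_ne {a : ℝ} (ha0 : 0 ≤ a) (ha : a < 1) : (1 - (a : ℂ) ^ 2) ≠ 0 := by
  have : (1 - a ^ 2 : ℝ) ≠ 0 := by nlinarith
  exact_mod_cast this

lemma PsiInv_Psi {a : ℝ} (ha0 : 0 ≤ a) (ha : a < 1) {x : Cn (m + 2)} (hx : ‖x 0‖ < 1) :
    PsiInv a (Psi a x) = x := by
  have hu := ne_of_re_pos (re_pos_of ha0 ha hx)
  have ha2 := one_sub_ne ha0 ha
  have h1 : 1 + a * ((x 0 - a) / (1 - a * x 0)) = (1 - (a : ℂ) ^ 2) / (1 - a * x 0) := by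
    field_simp; ring
  have h2 : ((x 0 - a) / (1 - a * x 0) + a) / (1 + a * ((x 0 - a) / (1 - a * x 0))) = x 0 := by
    rw [h1]
    exact mob_aux hu ha2 rfl
  ext j
  unfold PsiInv
  simp only [Psi_zero, Psi_last]
  split_ifs with h3 h4
  · rw [h2, h3]
  · rw [h2]
    have h5 := sq4_ne ha0 ha
    have h6 := csq_ne (1 - a * x 0)
    rw [h4]
    unfold la
    field_simp
  · have h7 : Psi a x j = (Real.sqrt (1 - a ^ 2) : ℂ) * x j / (1 - a * x 0) := by
      unfold Psi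
      simp only [if_neg h3, if_neg h4]
    rw [h7, h1]
    have h8 := sq2_mul ha0 ha
    calc (Real.sqrt (1 - a ^ 2) : ℂ) * ((Real.sqrt (1 - a ^ 2) : ℂ) * x j / (1 - a * x 0)) /
          ((1 - (a : ℂ) ^ 2) / (1 - a * x 0))
        = ((Real.sqrt (1 - a ^ 2) : ℂ) * (Real.sqrt (1 - a ^ 2) : ℂ)) * x j /
          (1 - (a : ℂ) ^ 2) := by field_simp
      _ = x j := by rw [h8]; field_simp

lemma PsiInv_zero (a : ℝ) (y : Cn (m + 2)) : PsiInv a y 0 = (y 0 + a) / (1 + a * y 0) := by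
  simp [PsiInv]

lemma PsiInv_last (a : ℝ) (y : Cn (m + 2)) : la (PsiInv a y) =
    la y * csq (1 - a * ((y 0 + a) / (1 + a * y 0))) / (Real.sqrt (Real.sqrt (1 - a ^ 2)) : ℂ) := by
  unfold PsiInv
  show (WithLp.toLp 2 _ : Cn (m + 2)) (Fin.last (m + 1)) = _
  simp only [if_neg (last_ne (m := m)), if_true]

lemma Psi_PsiInv {a : ℝ} (ha0 : 0 ≤ a) (ha : a < 1) {y : Cn (m + 2)} (hy : ‖y 0‖ < 1) :
    Psi a (PsiInv a y) = y := by
  have hu := ne_of_re_pos (re_pos_of' ha0 ha hy)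
  have ha2 := one_sub_ne ha0 ha
  have h1 : 1 - a * ((y 0 + a) / (1 + a * y 0)) = (1 - (a : ℂ) ^ 2) / (1 + a * y 0) := by
    field_simp; ring
  have h2 : ((y 0 + a) / (1 + a * y 0) - a) / (1 - a * ((y 0 + a) / (1 + a * y 0))) = y 0 := by
    rw [h1]
    exact mob_aux' hu ha2 rfl
  ext j
  unfold Psi
  simp only [PsiInv_zero, PsiInv_last]
  split_ifs with h3 h4
  · rw [h2, h3]
  · have h5 := sq4_ne ha0 ha
    have h6 := csq_ne (1 - a * ((y 0 + a) / (1 + a * y 0)))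
    rw [h4]
    unfold la
    generalize csq (1 - a * ((y 0 + a) / (1 + a * y 0))) = c at h6 ⊢
    field_simp
  · have h7 : PsiInv a y j = (Real.sqrt (1 - a ^ 2) : ℂ) * y j / (1 + a * y 0) := by
      unfold PsiInv
      simp only [if_neg h3, if_neg h4]
    rw [h7, h1]
    have h8 := sq2_mul ha0 ha
    calc (Real.sqrt (1 - a ^ 2) : ℂ) * ((Real.sqrt (1 - a ^ 2) : ℂ) * y j / (1 + a * y 0)) /
          ((1 - (a : ℂ) ^ 2) / (1 + a * y 0))
        = ((Real.sqrt (1 - a ^ 2) : ℂ) * (Real.sqrt (1 - a ^ 2) : ℂ)) * y j /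
          (1 - (a : ℂ) ^ 2) := by field_simp
      _ = y j := by rw [h8]; field_simp

lemma PsiInv_mem {a : ℝ} (ha0 : 0 ≤ a) (ha : a < 1) {y : Cn (m + 2)} (hy : y ∈ Egg m) :
    PsiInv a y ∈ Egg m := by
  have h0 := (Egg_bounds hy).2.2
  have h1 : ‖PsiInv a y 0‖ < 1 := by rw [PsiInv_zero]; exact mobius_lt ha0 ha h0
  have h2 := rho_Psi ha0 ha h1
  rw [Psi_PsiInv ha0 ha h0] at h2
  have hu' : 0 < ‖1 - a * PsiInv a y 0‖ ^ 2 := by
    have := norm_pos_iff.mpr (ne_of_re_pos (re_pos_of ha0 ha h1))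
    positivity
  have h3 : rho y * ‖1 - a * PsiInv a y 0‖ ^ 2 < 0 := mul_neg_of_neg_of_pos hy hu'
  rw [h2] at h3
  exact neg_of_mul_neg_right h3 (by nlinarith)

lemma Phi_last (t : ℝ) (x : Cn (m + 2)) : la (Phi t x) = (la x - t) / (1 - t * la x) := by
  unfold Phi
  show (WithLp.toLp 2 _ : Cn (m + 2)) (Fin.last (m + 1)) = _
  simp only [if_true]

lemma PhiInv_last (t : ℝ) (x : Cn (m + 2)) : la (PhiInv t x) = (la x + t) / (1 + t * la x) := by
  unfold PhiInv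
  show (WithLp.toLp 2 _ : Cn (m + 2)) (Fin.last (m + 1)) = _
  simp only [if_true]

lemma Phi_cast (t : ℝ) (x : Cn (m + 2)) (j : Fin (m + 1)) : Phi t x j.castSucc =
    (Real.sqrt ((1 - t ^ 2) / 2) : ℂ) * x j.castSucc / (1 - t * la x) := by
  unfold Phi
  simp only [if_neg (Fin.castSucc_lt_last j).ne]

lemma PhiInv_cast (t : ℝ) (x : Cn (m + 2)) (j : Fin (m + 1)) : PhiInv t x j.castSucc =
    x j.castSucc * (1 - t * ((la x + t) / (1 + t * la x))) / (Real.sqrt ((1 - t ^ 2) / 2) : ℂ) := by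
  unfold PhiInv
  simp only [if_neg (Fin.castSucc_lt_last j).ne]

lemma norm_Phi {t : ℝ} (ht0 : 0 ≤ t) (ht : t < 1) {x : Cn (m + 2)} (hx : ‖la x‖ < 1) :
    (1 - ‖Phi t x‖ ^ 2) * ‖1 - t * la x‖ ^ 2 = (1 - t ^ 2) * (1 - S x / 2 - ‖la x‖ ^ 2) := by
  have hu := ne_of_re_pos (re_pos_of ht0 ht hx)
  have hu' : 0 < ‖1 - t * la x‖ := norm_pos_iff.mpr hu
  have h1t : 0 ≤ (1 - t ^ 2) / 2 := by nlinarith
  rw [norm_sq_eq, Phi_last]
  have e1 : S (Phi t x) * ‖1 - t * la x‖ ^ 2 = (1 - t ^ 2) / 2 * S x := by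
    unfold S
    rw [Finset.sum_mul, Finset.mul_sum]
    refine Finset.sum_congr rfl fun j _ => ?_
    rw [Phi_cast, norm_div, div_pow, norm_mul, mul_pow, Complex.norm_real,
      Real.norm_of_nonneg (Real.sqrt_nonneg _), Real.sq_sqrt h1t]
    field_simp
  have e2 : ‖(la x - t) / (1 - t * la x)‖ ^ 2 * ‖1 - t * la x‖ ^ 2 = ‖la x - t‖ ^ 2 := by
    rw [norm_div, div_pow]
    exact div_mul_cancel₀ _ (pow_ne_zero 2 hu'.ne')
  have e3 := mobius_id t (la x)
  have : (1 - (S (Phi t x) + ‖(la x - t) / (1 - t * la x)‖ ^ 2)) * ‖1 - t * la x‖ ^ 2 =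
      ‖1 - t * la x‖ ^ 2 - (1 - t ^ 2) / 2 * S x - ‖la x - t‖ ^ 2 := by
    rw [← e1, ← e2]; ring
  rw [this, e3]
  ring

lemma Phi_mem {t : ℝ} (ht0 : 0 ≤ t) (ht : t < 1) {x : Cn (m + 2)} (hx : x ∈ Egg m) :
    Phi t x ∈ Metric.ball (0 : Cn (m + 2)) 1 := by
  have h0 := Egg_bounds hx
  have h1 := norm_Phi ht0 ht h0.2.1
  have hu' : 0 < ‖1 - t * la x‖ ^ 2 := by
    have := norm_pos_iff.mpr (ne_of_re_pos (re_pos_of ht0 ht h0.2.1))
    positivity
  have h2 : S x + ‖la x‖ ^ 4 - 1 < 0 := hx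
  have h3 : 0 < (1 - t ^ 2) * (1 - S x / 2 - ‖la x‖ ^ 2) := by
    have e1 : 0 < 1 - t ^ 2 := by nlinarith
    have e2 : 0 < 1 - S x / 2 - ‖la x‖ ^ 2 := by nlinarith [sq_nonneg (1 - ‖la x‖ ^ 2)]
    positivity
  rw [← h1] at h3
  have h4 : 0 < 1 - ‖Phi t x‖ ^ 2 := pos_of_mul_pos_left h3 hu'.le
  rw [mem_ball_zero_iff]
  nlinarith [norm_nonneg (Phi t x)]

lemma kap_ne {t : ℝ} (ht0 : 0 ≤ t) (ht : t < 1) : (Real.sqrt ((1 - t ^ 2) / 2) : ℂ) ≠ 0 := by
  have : Real.sqrt ((1 - t ^ 2) / 2) ≠ 0 := (Real.sqrt_pos.2 (by nlinarith)).ne'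
  exact_mod_cast this

lemma PhiInv_Phi {t : ℝ} (ht0 : 0 ≤ t) (ht : t < 1) {x : Cn (m + 2)} (hx : ‖la x‖ < 1) :
    PhiInv t (Phi t x) = x := by
  have hu := ne_of_re_pos (re_pos_of ht0 ht hx)
  have ha2 := one_sub_ne ht0 ht
  have h1 : 1 + t * ((la x - t) / (1 - t * la x)) = (1 - (t : ℂ) ^ 2) / (1 - t * la x) := by
    field_simp; ring
  have h2 : ((la x - t) / (1 - t * la x) + t) / (1 + t * ((la x - t) / (1 - t * la x))) = la x := by
    rw [h1]
    exact mob_aux hu ha2 rfl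
  have h3 := kap_ne ht0 ht
  ext j
  induction j using Fin.lastCases with
  | last =>
    have : la (PhiInv t (Phi t x)) = la x := by rw [PhiInv_last, Phi_last, h2]
    exact this
  | cast j =>
    rw [PhiInv_cast, Phi_cast, Phi_last, h2]
    field_simp

lemma Phi_PhiInv {t : ℝ} (ht0 : 0 ≤ t) (ht : t < 1) {y : Cn (m + 2)} (hy : ‖la y‖ < 1) :
    Phi t (PhiInv t y) = y := by
  have hu := ne_of_re_pos (re_pos_of' ht0 ht hy)
  have ha2 := one_sub_ne ht0 ht
  have h1 : 1 - t * ((la y + t) / (1 + t * la y)) = (1 - (t : ℂ) ^ 2) / (1 + t * la y) := by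
    field_simp; ring
  have h2 : ((la y + t) / (1 + t * la y) - t) / (1 - t * ((la y + t) / (1 + t * la y))) = la y := by
    rw [h1]
    exact mob_aux' hu ha2 rfl
  have h3 := kap_ne ht0 ht
  have h4 : 1 - t * ((la y + t) / (1 + t * la y)) ≠ 0 := by
    rw [h1]; exact div_ne_zero ha2 hu
  ext j
  induction j using Fin.lastCases with
  | last =>
    have : la (Phi t (PhiInv t y)) = la y := by rw [Phi_last, PhiInv_last, h2]
    exact this
  | cast j =>
    rw [Phi_cast, PhiInv_cast, PhiInv_last]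
    generalize (1 - t * ((la y + t) / (1 + t * la y)) : ℂ) = c at h4 ⊢
    field_simp

/-- The image of the egg contains a large ball. -/
lemma PhiInv_mem {t r : ℝ} (ht0 : 0 ≤ t) (ht : t < 1) (hr0 : 0 < r) (hr : 1 - r ^ 2 = 2 * (1 - t ^ 2))
    {y : Cn (m + 2)} (hy : y ∈ Metric.ball (0 : Cn (m + 2)) r) : PhiInv t y ∈ Egg m := by
  rw [mem_ball_zero_iff] at hy
  have hr1 : r < 1 := by nlinarith
  have hy1 : ‖la y‖ < 1 := by
    have h1 := norm_sq_eq y
    have h2 := S_nonneg y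
    nlinarith [norm_nonneg y, norm_nonneg (la y)]
  have hx1 : ‖la (PhiInv t y)‖ < 1 := by rw [PhiInv_last]; exact mobius_lt ht0 ht hy1
  have h1 := norm_Phi ht0 ht hx1
  rw [Phi_PhiInv ht0 ht hy1] at h1
  set x := PhiInv t y with hx
  have hn : 1 - ‖la x‖ ≤ ‖1 - t * la x‖ := by
    have h2 : ‖(1 : ℂ)‖ - ‖(t : ℂ) * la x‖ ≤ ‖1 - t * la x‖ := norm_sub_norm_le _ _
    rw [norm_one, norm_mul, Complex.norm_real, Real.norm_of_nonneg ht0] at h2
    nlinarith [norm_nonneg (la x)]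
  have h3 : (1 - ‖la x‖ ^ 2) ^ 2 ≤ 4 * ‖1 - t * la x‖ ^ 2 := by
    have h4 : 1 - ‖la x‖ ^ 2 ≤ 2 * ‖1 - t * la x‖ := by
      nlinarith [norm_nonneg (la x)]
    have h5 : 0 ≤ 1 - ‖la x‖ ^ 2 := by nlinarith [norm_nonneg (la x)]
    nlinarith
  have hy2 : ‖y‖ ^ 2 < r ^ 2 := by nlinarith [norm_nonneg y]
  have hu' : 0 < ‖1 - t * la x‖ ^ 2 := by
    have := norm_pos_iff.mpr (ne_of_re_pos (re_pos_of ht0 ht hx1))
    positivity
  have h6 : (1 - r ^ 2) * ‖1 - t * la x‖ ^ 2 < (1 - t ^ 2) * (1 - S x / 2 - ‖la x‖ ^ 2) := by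
    rw [← h1]
    exact mul_lt_mul_of_pos_right (by linarith) hu'
  rw [hr] at h6
  have h1t : 0 < 1 - t ^ 2 := by nlinarith
  have h7 : 2 * ‖1 - t * la x‖ ^ 2 < 1 - S x / 2 - ‖la x‖ ^ 2 := by
    have : (1 - t ^ 2) * (2 * ‖1 - t * la x‖ ^ 2) < (1 - t ^ 2) * (1 - S x / 2 - ‖la x‖ ^ 2) := by
      linarith
    exact lt_of_mul_lt_mul_left this h1t.le
  show S x + ‖la x‖ ^ 4 - 1 < 0
  nlinarith

end Maps

section Final

variable {m : ℕ}

lemma dAt_div {f g : Cn (m + 2) → ℂ} {x : Cn (m + 2)} (hf : DifferentiableAt ℂ f x)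
    (hg : DifferentiableAt ℂ g x) (h : g x ≠ 0) : DifferentiableAt ℂ (fun y => f y / g y) x := by
  simp only [div_eq_mul_inv]
  exact hf.mul (hg.inv h)

lemma dAt_mul {f g : Cn (m + 2) → ℂ} {x : Cn (m + 2)} (hf : DifferentiableAt ℂ f x)
    (hg : DifferentiableAt ℂ g x) : DifferentiableAt ℂ (fun y => f y * g y) x := hf.mul hg

lemma dAt_csq {f : Cn (m + 2) → ℂ} {x : Cn (m + 2)} (hf : DifferentiableAt ℂ f x)
    (h : 0 < (f x).re) : DifferentiableAt ℂ (fun y => csq (f y)) x :=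
  (csq_diff h).comp x hf

lemma dAt_la (x : Cn (m + 2)) : DifferentiableAt ℂ (la (m := m)) x := by
  unfold la; fun_prop

lemma differentiableAt_Psi {a : ℝ} (ha0 : 0 ≤ a) (ha : a < 1) {x : Cn (m + 2)} (hx : ‖x 0‖ < 1) :
    DifferentiableAt ℂ (Psi (m := m) a) x := by
  have hu := ne_of_re_pos (re_pos_of ha0 ha hx)
  have hpos := re_pos_of ha0 ha hx
  rw [differentiableAt_euclidean]
  intro j
  unfold Psi
  simp only
  have h0 : DifferentiableAt ℂ (fun x : Cn (m + 2) => 1 - (a : ℂ) * x 0) x := by fun_prop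
  split_ifs
  · exact dAt_div (by fun_prop) h0 hu
  · refine dAt_div ((dAt_la x).const_mul _) ?_ (csq_ne _)
    exact dAt_csq h0 hpos
  · exact dAt_div (by fun_prop) h0 hu

lemma differentiableAt_PsiInv {a : ℝ} (ha0 : 0 ≤ a) (ha : a < 1) {y : Cn (m + 2)}
    (hy : ‖y 0‖ < 1) : DifferentiableAt ℂ (PsiInv (m := m) a) y := by
  have hu := ne_of_re_pos (re_pos_of' ha0 ha hy)
  have hpos := re_pos_of ha0 ha (mobius_lt ha0 ha hy)
  rw [differentiableAt_euclidean]
  intro j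
  unfold PsiInv
  simp only
  have h0 : DifferentiableAt ℂ (fun x : Cn (m + 2) => 1 + (a : ℂ) * x 0) y := by fun_prop
  have h1 : DifferentiableAt ℂ (fun x : Cn (m + 2) => (x 0 + a) / (1 + (a : ℂ) * x 0)) y :=
    dAt_div (by fun_prop) h0 hu
  split_ifs
  · exact h1
  · refine dAt_div (dAt_mul (dAt_la y) ?_) (differentiableAt_const _) (sq4_ne ha0 ha)
    have h2 : DifferentiableAt ℂ
        (fun x : Cn (m + 2) => 1 - (a : ℂ) * ((x 0 + a) / (1 + (a : ℂ) * x 0))) y :=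
      (h1.const_mul (a : ℂ)).const_sub 1
    exact dAt_csq h2 hpos
  · exact dAt_div (by fun_prop) h0 hu

lemma differentiableAt_Phi {t : ℝ} (ht0 : 0 ≤ t) (ht : t < 1) {x : Cn (m + 2)} (hx : ‖la x‖ < 1) :
    DifferentiableAt ℂ (Phi (m := m) t) x := by
  have hu := ne_of_re_pos (re_pos_of ht0 ht hx)
  rw [differentiableAt_euclidean]
  intro j
  unfold Phi
  simp only
  have h0 : DifferentiableAt ℂ (fun x : Cn (m + 2) => 1 - (t : ℂ) * la x) x := by
    unfold la; fun_prop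
  split_ifs
  · exact dAt_div ((dAt_la x).sub_const _) h0 hu
  · exact dAt_div (by fun_prop) h0 hu

lemma differentiableAt_PhiInv {t : ℝ} (ht0 : 0 ≤ t) (ht : t < 1) {y : Cn (m + 2)}
    (hy : ‖la y‖ < 1) : DifferentiableAt ℂ (PhiInv (m := m) t) y := by
  have hu := ne_of_re_pos (re_pos_of' ht0 ht hy)
  rw [differentiableAt_euclidean]
  intro j
  unfold PhiInv
  simp only
  have h0 : DifferentiableAt ℂ (fun x : Cn (m + 2) => 1 + (t : ℂ) * la x) y := by
    unfold la; fun_prop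
  have h1 : DifferentiableAt ℂ (fun x : Cn (m + 2) => (la x + t) / (1 + (t : ℂ) * la x)) y :=
    dAt_div ((dAt_la y).add_const _) h0 hu
  split_ifs
  · exact h1
  · refine dAt_div (dAt_mul (by fun_prop) ?_) (differentiableAt_const _) (kap_ne ht0 ht)
    exact (h1.const_mul (t : ℂ)).const_sub 1

lemma norm_apply_lt {y : Cn (m + 2)} {r : ℝ} (hy : y ∈ Metric.ball (0 : Cn (m + 2)) r)
    (i : Fin (m + 2)) : ‖y i‖ < r := by
  rw [mem_ball_zero_iff] at hy
  exact (PiLp.norm_apply_le y i).trans_lt hy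

/-- The image of the point `(0, …, 0, t)` under the inverse automorphism of the egg. -/
noncomputable def qpt (m : ℕ) (a t : ℝ) : Cn (m + 2) := PsiInv a ((t : ℂ) • el m)

lemma tel_zero (t : ℝ) : ((t : ℂ) • el m) 0 = 0 := by
  simp [el]

lemma tel_last (t : ℝ) : la ((t : ℂ) • el m) = t := by
  simp [el, la]

lemma tel_mem {t : ℝ} (ht0 : 0 ≤ t) (ht : t < 1) : ((t : ℂ) • el m) ∈ Egg m := by
  show rho _ < 0
  have h1 : S ((t : ℂ) • el m) = 0 := by
    unfold S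
    refine Finset.sum_eq_zero fun j _ => ?_
    simp [el]
  unfold rho
  rw [h1, tel_last, Complex.norm_real, Real.norm_of_nonneg ht0]
  have : t ^ 4 < 1 := pow_lt_one₀ ht0 ht (by norm_num)
  linarith

lemma qpt_mem {a t : ℝ} (ha0 : 0 ≤ a) (ha : a < 1) (ht0 : 0 ≤ t) (ht : t < 1) :
    qpt m a t ∈ Egg m := PsiInv_mem ha0 ha (tel_mem ht0 ht)

/-- Lower bound for the squeezing function of the egg. -/
lemma squeezing_ge {a t r : ℝ} (ha0 : 0 ≤ a) (ha : a < 1) (ht0 : 0 ≤ t) (ht : t < 1) (hr0 : 0 < r)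
    (hr : 1 - r ^ 2 = 2 * (1 - t ^ 2)) :
    ∃ F : Cn (m + 2) → Cn (m + 2), IsHolEmbedding (Egg m) F ∧
      MapsTo F (Egg m) (Metric.ball 0 1) ∧ F (qpt m a t) = 0 ∧ Metric.ball 0 r ⊆ F '' Egg m := by
  have hr1 : r < 1 := by nlinarith
  set F : Cn (m + 2) → Cn (m + 2) := fun x => Phi t (Psi a x) with hF
  set G : Cn (m + 2) → Cn (m + 2) := fun y => PsiInv a (PhiInv t y) with hG
  have hmaps : MapsTo F (Egg m) (Metric.ball 0 1) := fun x hx => Phi_mem ht0 ht (Psi_mem ha0 ha hx)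
  have hGF : ∀ x ∈ Egg m, G (F x) = x := by
    intro x hx
    simp only [hF, hG]
    rw [PhiInv_Phi ht0 ht (Egg_bounds (Psi_mem ha0 ha hx)).2.1,
      PsiInv_Psi ha0 ha (Egg_bounds hx).2.2]
  have hFd : ∀ x ∈ Egg m, DifferentiableAt ℂ F x := by
    intro x hx
    show DifferentiableAt ℂ (Phi t ∘ Psi a) x
    exact (differentiableAt_Phi ht0 ht (Egg_bounds (Psi_mem ha0 ha hx)).2.1).comp x
      (differentiableAt_Psi ha0 ha (Egg_bounds hx).2.2)
  have hGd : ∀ x ∈ Egg m, DifferentiableAt ℂ G (F x) := by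
    intro x hx
    have h1 : PhiInv t (F x) = Psi a x := PhiInv_Phi ht0 ht (Egg_bounds (Psi_mem ha0 ha hx)).2.1
    have h2 : DifferentiableAt ℂ (PhiInv (m := m) t) (F x) :=
      differentiableAt_PhiInv ht0 ht (norm_apply_lt (hmaps hx) _)
    have h3 : DifferentiableAt ℂ (PsiInv (m := m) a) (PhiInv t (F x)) := by
      rw [h1]
      exact differentiableAt_PsiInv ha0 ha (Egg_bounds (Psi_mem ha0 ha hx)).2.2
    show DifferentiableAt ℂ (PsiInv a ∘ PhiInv t) (F x)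
    exact h3.comp (F x) h2
  refine ⟨F, ⟨fun x hx => (hFd x hx).differentiableWithinAt, ?_, ?_⟩, hmaps, ?_, ?_⟩
  · intro x hx y hy hxy
    rw [← hGF x hx, ← hGF y hy, hxy]
  · intro x hx v w hvw
    have h1 : HasFDerivAt (fun z => G (F z)) ((fderiv ℂ G (F x)).comp (fderiv ℂ F x)) x :=
      (hGd x hx).hasFDerivAt.comp x (hFd x hx).hasFDerivAt
    have h2 : HasFDerivAt (fun z => G (F z)) (ContinuousLinearMap.id ℂ (Cn (m + 2))) x := by
      refine (hasFDerivAt_id x).congr_of_eventuallyEq ?_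
      filter_upwards [isOpen_Egg.mem_nhds hx] with z hz
      exact hGF z hz
    have h3 := h1.unique h2
    have h4 : ∀ u, (fderiv ℂ G (F x)) ((fderiv ℂ F x) u) = u := by
      intro u
      have := congrArg (fun L : Cn (m + 2) →L[ℂ] Cn (m + 2) => L u) h3
      simpa using this
    rw [← h4 v, ← h4 w, hvw]
  · have h1 : Psi a (qpt m a t) = (t : ℂ) • el m :=
      Psi_PsiInv ha0 ha (by rw [tel_zero]; simp)
    show Phi t (Psi a (qpt m a t)) = 0
    rw [h1]
    ext j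
    induction j using Fin.lastCases with
    | last =>
      have : la (Phi t ((t : ℂ) • el m)) = 0 := by rw [Phi_last, tel_last]; simp
      exact this
    | cast j =>
      rw [Phi_cast]
      simp [el]
  · intro y hy
    have hy1 : ‖la y‖ < 1 := (norm_apply_lt hy _).trans hr1
    have h1 := PhiInv_mem ht0 ht hr0 hr hy
    refine ⟨G y, PsiInv_mem ha0 ha h1, ?_⟩
    show Phi t (Psi a (PsiInv a (PhiInv t y))) = y
    rw [Psi_PsiInv ha0 ha (Egg_bounds h1).2.2, Phi_PhiInv ht0 ht hy1]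

lemma squeezing_bdd {n : ℕ} (D : Set (Cn (n + 1))) (z : Cn (n + 1)) :
    ∀ r ∈ {r : ℝ | 0 < r ∧ ∃ F : Cn (n + 1) → Cn (n + 1), IsHolEmbedding D F ∧
      MapsTo F D (Metric.ball 0 1) ∧ F z = 0 ∧ Metric.ball 0 r ⊆ F '' D}, r ≤ 1 := by
  rintro r ⟨hr0, F, _, hm, _, hb⟩
  by_contra hcon
  push Not at hcon
  have h1 : Metric.ball (0 : Cn (n + 1)) r ⊆ Metric.ball 0 1 := by
    intro y hy
    obtain ⟨x, hx, rfl⟩ := hb hy
    exact hm hx
  have h2 : (EuclideanSpace.single 0 1 : Cn (n + 1)) ∈ Metric.ball (0 : Cn (n + 1)) r := by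
    rw [mem_ball_zero_iff]
    simpa using hcon
  have h3 := h1 h2
  rw [mem_ball_zero_iff] at h3
  simp at h3

/-- The parameters. -/
noncomputable def rr (k : ℕ) : ℝ := 1 - 1 / ((k : ℝ) + 2)
noncomputable def tt (k : ℕ) : ℝ := Real.sqrt ((1 + rr k ^ 2) / 2)

lemma rr_pos (k : ℕ) : 0 < rr k := by
  unfold rr
  have h1 : (0 : ℝ) < (k : ℝ) + 2 := by positivity
  have h2 : 1 / ((k : ℝ) + 2) < 1 := by
    rw [div_lt_one h1]
    have : (0 : ℝ) ≤ k := by positivity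
    linarith
  linarith

lemma rr_lt (k : ℕ) : rr k < 1 := by
  unfold rr
  have h1 : (0 : ℝ) < 1 / ((k : ℝ) + 2) := by positivity
  linarith

lemma rr_lim : Tendsto rr atTop (𝓝 1) := by
  have h1 : Tendsto (fun k : ℕ => (k : ℝ) + 2) atTop atTop :=
    tendsto_atTop_add_const_right _ _ tendsto_natCast_atTop_atTop
  have h2 := h1.inv_tendsto_atTop.const_sub 1
  simp only [sub_zero] at h2
  refine h2.congr fun k => ?_
  simp [rr]

lemma tt_sq (k : ℕ) : tt k ^ 2 = (1 + rr k ^ 2) / 2 :=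
  Real.sq_sqrt (by positivity)

lemma tt_nonneg (k : ℕ) : 0 ≤ tt k := Real.sqrt_nonneg _

lemma tt_lt (k : ℕ) : tt k < 1 := by
  have h1 := tt_sq k
  have h2 := rr_lt k
  have h3 := rr_pos k
  nlinarith [tt_nonneg k]

lemma qpt_tendsto : Tendsto (fun k => qpt m (rr k) (tt k)) atTop (𝓝 (pt m)) := by
  -- the first coordinate is `rr k`, the last one has modulus `tt k * (1 - rr k ^ 2) ^ (1/4)`,
  -- the others vanish
  rw [tendsto_iff_norm_sub_tendsto_zero]
  have hsq : ∀ k, ‖qpt m (rr k) (tt k) - pt m‖ ^ 2 ≤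
      (1 - rr k) ^ 2 + Real.sqrt (1 - rr k ^ 2) := by
    intro k
    have h0 : qpt m (rr k) (tt k) 0 = rr k := by
      unfold qpt
      rw [PsiInv_zero, tel_zero]
      simp
    have hmid : ∀ j : Fin m, qpt m (rr k) (tt k) j.castSucc.succ = 0 := by
      intro j
      unfold qpt PsiInv
      simp only [if_neg (mid_ne_zero j), if_neg (mid_ne_last j)]
      have : ((tt k : ℂ) • el m) j.castSucc.succ = 0 := by
        simp [el, mid_ne_last j]
      rw [this]
      simp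
    have hlast : ‖la (qpt m (rr k) (tt k))‖ ^ 2 ≤ Real.sqrt (1 - rr k ^ 2) := by
      unfold qpt
      rw [PsiInv_last, tel_last, tel_zero]
      simp only [mul_zero, add_zero, div_one, zero_add]
      have hpos : 0 < 1 - rr k ^ 2 := by nlinarith [rr_pos k, rr_lt k]
      have e1 : ‖csq (1 - (rr k : ℂ) * rr k)‖ ^ 2 = 1 - rr k ^ 2 := by
        have hne : (1 - (rr k : ℂ) * rr k) ≠ 0 := by
          have : (1 - rr k * rr k : ℝ) ≠ 0 := by nlinarith
          exact_mod_cast this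
        rw [← norm_pow, csq_sq hne]
        have : (1 - (rr k : ℂ) * rr k) = ((1 - rr k ^ 2 : ℝ) : ℂ) := by push_cast; ring
        rw [this, Complex.norm_real, Real.norm_of_nonneg hpos.le]
      have e2 : Real.sqrt (Real.sqrt (1 - rr k ^ 2)) ^ 2 = Real.sqrt (1 - rr k ^ 2) :=
        Real.sq_sqrt (Real.sqrt_nonneg _)
      have e3 : 0 < Real.sqrt (1 - rr k ^ 2) := Real.sqrt_pos.2 hpos
      rw [norm_div, norm_mul, div_pow, mul_pow, e1, Complex.norm_real, Complex.norm_real,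
        Real.norm_of_nonneg (tt_nonneg k), Real.norm_of_nonneg (Real.sqrt_nonneg _), e2,
        div_le_iff₀ e3, Real.mul_self_sqrt hpos.le]
      have h1 : tt k ^ 2 ≤ 1 := by nlinarith [tt_nonneg k, tt_lt k]
      nlinarith
    rw [norm_sq_eq, S_eq]
    have e0 : (qpt m (rr k) (tt k) - pt m) 0 = ((rr k - 1 : ℝ) : ℂ) := by
      simp [h0, pt_zero]
    have e1 : ∀ j : Fin m, (qpt m (rr k) (tt k) - pt m) j.castSucc.succ = 0 := by
      intro j
      simp [hmid, pt_mid]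
    have e2 : la (qpt m (rr k) (tt k) - pt m) = la (qpt m (rr k) (tt k)) := by
      have := pt_last (m := m)
      unfold la at this ⊢
      simp [this]
    rw [e0, e2]
    simp only [e1]
    rw [Complex.norm_real, Real.norm_eq_abs, sq_abs]
    simp only [norm_zero, ne_eq, OfNat.ofNat_ne_zero, not_false_eq_true, zero_pow,
      Finset.sum_const_zero, add_zero]
    nlinarith
  have hlim : Tendsto (fun k => (1 - rr k) ^ 2 + Real.sqrt (1 - rr k ^ 2)) atTop (𝓝 0) := by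
    have h1 : Continuous (fun s : ℝ => (1 - s) ^ 2 + Real.sqrt (1 - s ^ 2)) := by fun_prop
    have h2 := (h1.tendsto 1).comp rr_lim
    have h3 : (1 - (1:ℝ)) ^ 2 + Real.sqrt (1 - 1 ^ 2) = 0 := by simp
    rw [h3] at h2
    exact h2
  have h3 : Tendsto (fun k => ‖qpt m (rr k) (tt k) - pt m‖ ^ 2) atTop (𝓝 0) :=
    squeeze_zero (fun _ => by positivity) hsq hlim
  have h4 := h3.sqrt
  simpa using h4

lemma squeezing_tendsto :
    Tendsto (fun k => squeezing (Egg m) (qpt m (rr k) (tt k))) atTop (𝓝 1) := by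
  refine tendsto_of_tendsto_of_tendsto_of_le_of_le rr_lim tendsto_const_nhds ?_ ?_
  · intro k
    unfold squeezing
    refine le_csSup ⟨1, squeezing_bdd _ _⟩ ⟨rr_pos k, ?_⟩
    exact squeezing_ge (rr_pos k).le (rr_lt k) (tt_nonneg k) (tt_lt k) (rr_pos k)
      (by rw [tt_sq]; ring)
  · intro k
    unfold squeezing
    refine csSup_le ⟨rr k, rr_pos k, ?_⟩ (squeezing_bdd _ _)
    exact squeezing_ge (rr_pos k).le (rr_lt k) (tt_nonneg k) (tt_lt k) (rr_pos k)
      (by rw [tt_sq]; ring)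

lemma caseA : CaseA (Egg 0) (pt 0) :=
  ⟨rfl, {0}ᶜ, rho, isDefining_rho pt_ne, leviPseudoconvexOn_rho _,
    (type_le_four rho_pt).trans_lt (by norm_num)⟩

lemma caseC : CaseC (Egg m) (pt m) :=
  ⟨by omega, convex_Egg, {0}ᶜ, rho, isDefining_rho pt_ne, fun _ _ hq =>
    (type_le_four hq).trans_lt (by norm_num)⟩

lemma caseB : CaseB (Egg m) (pt m) := by
  refine ⟨by omega, {0}ᶜ, rho, isDefining_rho pt_ne, leviPseudoconvexOn_rho _,
    fun _ _ hq => (type_le_four hq).trans_lt (by norm_num), ?_⟩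
  set e : Fin m → Cn (m + 2) := fun j => EuclideanSpace.basisFun (Fin (m + 2)) ℂ j.castSucc.succ
    with he
  have hinj : Function.Injective (fun j : Fin m => (j.castSucc.succ : Fin (m + 2))) := by
    intro i j hij
    simpa using hij
  have hli : LinearIndependent ℂ e :=
    ((EuclideanSpace.basisFun (Fin (m + 2)) ℂ).orthonormal.comp _ hinj).linearIndependent
  refine ⟨Submodule.span ℂ (Set.range e), ?_, ?_⟩
  · rw [finrank_span_eq_card hli]
    simp
  · intro v hv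
    have h0 : v 0 = 0 ∧ la v = 0 := by
      refine Submodule.span_induction (p := fun v _ => v 0 = 0 ∧ la v = 0) ?_ ?_ ?_ ?_ hv
      · rintro _ ⟨j, rfl⟩
        have h1 : (0 : Fin (m + 2)) ≠ j.castSucc.succ := (mid_ne_zero j).symm
        have h2 : Fin.last (m + 1) ≠ j.castSucc.succ := (mid_ne_last j).symm
        simp [he, la, h1, h2]
      · simp [la]
      · rintro x y _ _ ⟨hx1, hx2⟩ ⟨hy1, hy2⟩
        unfold la at hx2 hy2 ⊢
        simp [hx1, hx2, hy1, hy2]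
      · rintro c x _ ⟨hx1, hx2⟩
        unfold la at hx2 ⊢
        simp [hx1, hx2]
    have hB : ∀ w : Cn (m + 2), w 0 = 0 → fderiv ℝ rho (pt m) w = 0 := by
      intro w hw
      rw [fderiv_rho, pt_last]
      have : B (pt m) w = 0 := by
        unfold B
        rw [Fin.sum_univ_succ]
        have e1 : w (Fin.castSucc 0) = 0 := hw
        rw [e1]
        simp only [mul_zero, Complex.zero_re, zero_add]
        refine Finset.sum_eq_zero fun j _ => ?_
        have e2 : pt m j.succ.castSucc = 0 := pt_mid j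
        rw [e2]
        simp
      rw [this]
      simp
    refine ⟨⟨hB v h0.1, hB _ (by simp [h0.1])⟩, fun hv0 => ?_⟩
    rw [levi_rho]
    have h1 := norm_sq_eq v
    rw [h0.2] at h1 ⊢
    have h2 : 0 < ‖v‖ ^ 2 := by
      have := norm_pos_iff.mpr hv0
      positivity
    simp only [norm_zero] at h1 ⊢
    nlinarith

end Final

/-- For every `n ≥ 2` there are a bounded domain `D ⊆ ℂⁿ` and a boundary point `p` such that
`(D, p)` is admissible - it satisfies (B) and (C), and if `n = 2` also (A) -, `p` is not a strongly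
pseudoconvex boundary point, and some sequence in `D` converging to `p` satisfies
`s_D(z_ν) → 1`. -/
theorem result : ∀ n : ℕ, 2 ≤ n → ∃ (D : Set (Cn n)) (p : Cn n),
    IsOpen D ∧ IsConnected D ∧ Bornology.IsBounded D ∧ p ∈ frontier D ∧
      (n = 2 → CaseA D p) ∧ CaseB D p ∧ CaseC D p ∧
      (∃ z : ℕ → Cn n, (∀ k, z k ∈ D) ∧ Tendsto z atTop (𝓝 p) ∧
        Tendsto (fun k => squeezing D (z k)) atTop (𝓝 1)) ∧
      ¬ StronglyPseudoconvexAt D p := by
  intro n hn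
  obtain ⟨m, rfl⟩ : ∃ m, n = m + 2 := ⟨n - 2, by omega⟩
  refine ⟨Egg m, pt m, isOpen_Egg, isConnected_Egg, bounded_Egg, pt_mem_frontier, ?_, caseB, caseC,
    ⟨fun k => qpt m (rr k) (tt k), fun k => qpt_mem (rr_pos k).le (rr_lt k) (tt_nonneg k) (tt_lt k),
      qpt_tendsto, squeezing_tendsto⟩, not_strongly⟩
  intro h
  obtain rfl : m = 0 := by omega
  exact caseA

end Pool.Agent.Results.MP_63facb_an.EggSequence
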